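import Mathlib

/-!
# Expanding Thurston maps on the standard sphere: definitions
-/

set_option autoImplicit false

open Set Filter Topology

namespace Pool.Agent.Run7.h327.Th

/-- The unit sphere of `ℝ³` with its standard smooth structure: the Riemann sphere. -/
abbrev S2 : Type := Metric.sphere (0 : EuclideanSpace ℝ (Fin 3)) 1

theorem norm_unstereo (w : ℂ) :
    (!₂[2 * w.re / (‖w‖ ^ 2 + 1), 2 * w.im / (‖w‖ ^ 2 + 1), (‖w‖ ^ 2 - 1) / (‖w‖ ^ 2 + 1)] :
      EuclideanSpace ℝ (Fin 3)) ∈ Metric.sphere (0 : EuclideanSpace ℝ (Fin 3)) 1 := by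
  have h : (0 : ℝ) < ‖w‖ ^ 2 + 1 := by positivity
  have h2 : ‖w‖ ^ 2 = w.re ^ 2 + w.im ^ 2 := by
    rw [Complex.sq_norm, Complex.normSq_apply]; ring
  rw [mem_sphere_zero_iff_norm, EuclideanSpace.norm_eq, Real.sqrt_eq_one]
  simp only [Fin.sum_univ_three, Real.norm_eq_abs, sq_abs]
  simp
  field_simp
  rw [h2]
  ring

/-- The complex coordinate `w` of the Riemann sphere: `unstereo w` is the point of the sphere with
stereographic projection `w` from the north pole `(0, 0, 1)`; these are all the points except the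
north pole. -/
noncomputable def unstereo (w : ℂ) : S2 :=
  ⟨!₂[2 * w.re / (‖w‖ ^ 2 + 1), 2 * w.im / (‖w‖ ^ 2 + 1), (‖w‖ ^ 2 - 1) / (‖w‖ ^ 2 + 1)],
    norm_unstereo w⟩

/-- `h` preserves the orientation at the point `z`: for all small `r > 0` the loop
`ξ ↦ h (z + r ξ) - h z`, `|ξ| = 1`, is homotopic in `ℂ ∖ {0}` to the loop `ξ ↦ ξ`. -/
def PreservesOrientationAt (h : ℂ → ℂ) (z : ℂ) : Prop :=
  ∀ᶠ r : ℝ in 𝓝[>] 0, ∃ H : C(unitInterval × Circle, ℂ), (∀ x, H x ≠ 0) ∧
    (∀ ξ : Circle, H (0, ξ) = h (z + r * ξ) - h z) ∧ ∀ ξ : Circle, H (1, ξ) = ξ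

/-- The homeomorphism `φ` from an open subset of the sphere to an open subset of `ℂ` preserves the
orientation: it does so at every point except possibly the north pole, with respect to the
coordinate `w`. -/
def IsOriented (φ : OpenPartialHomeomorph S2 ℂ) : Prop :=
  ∀ w : ℂ, unstereo w ∈ φ.source → PreservesOrientationAt (fun z => φ (unstereo z)) w

/-- The local degree of `f` at `p` is `d`: there are orientation-preserving homeomorphisms `φ`, `ψ`
from open neighbourhoods `U` of `p` and `V` of `f p` onto open neighbourhoods of `0` in `ℂ` with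
`φ p = 0`, `ψ (f p) = 0` and `ψ (f q) = (φ q) ^ d` for all `q` in `U`. -/
def HasLocalDegree (f : S2 → S2) (p : S2) (d : ℕ) : Prop :=
  1 ≤ d ∧ ∃ φ ψ : OpenPartialHomeomorph S2 ℂ, IsOriented φ ∧ IsOriented ψ ∧
    p ∈ φ.source ∧ φ p = 0 ∧ f p ∈ ψ.source ∧ ψ (f p) = 0 ∧
    ∀ q ∈ φ.source, f q ∈ ψ.source ∧ ψ (f q) = φ q ^ d

/-- Branched covering maps of the sphere. -/
def IsBranchedCovering (f : S2 → S2) : Prop :=
  Continuous f ∧ ∀ p, ∃ d, HasLocalDegree f p d

/-- The set of critical points. -/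
def crit (f : S2 → S2) : Set S2 := {p | ∃ d, 2 ≤ d ∧ HasLocalDegree f p d}

/-- The postcritical set. -/
def post (f : S2 → S2) : Set S2 := ⋃ n : ℕ, f^[n + 1] '' crit f

/-- The branched covering map `f` has topological degree `d`: every point of the sphere that is not
the image of a critical point has exactly `d` preimages. -/
def HasDegree (f : S2 → S2) (d : ℕ) : Prop :=
  ∀ y, y ∉ f '' crit f → (f ⁻¹' {y}).ncard = d

/-- Thurston maps of the sphere: branched covering maps of topological degree at least two with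
finite postcritical set. -/
def IsThurstonMap (f : S2 → S2) : Prop :=
  IsBranchedCovering f ∧ (∃ d, 2 ≤ d ∧ HasDegree f d) ∧ (post f).Finite

/-- Jordan curves in the sphere. -/
def IsJordanCurve (C : Set S2) : Prop :=
  ∃ γ : Circle → S2, Continuous γ ∧ Function.Injective γ ∧ range γ = C

/-- The supremum of the diameters of the connected components of `f⁻ⁿ(S² ∖ C)`. -/
noncomputable def mesh (f : S2 → S2) (n : ℕ) (C : Set S2) : ENNReal :=
  ⨆ p ∈ f^[n] ⁻¹' Cᶜ, Metric.ediam (connectedComponentIn (f^[n] ⁻¹' Cᶜ) p)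

/-- Expanding Thurston maps of the sphere. -/
def IsExpandingThurstonMap (f : S2 → S2) : Prop :=
  IsThurstonMap f ∧ ∃ C : Set S2, IsJordanCurve C ∧ post f ⊆ C ∧
    Tendsto (fun n => mesh f n C) atTop (𝓝 0)

end Pool.Agent.Run7.h327.Th
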