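import Mathlib
import Pool.Agent.Run7.h327.Th.Def

set_option autoImplicit false

open Set Filter Topology

namespace Pool.Agent.Run7.h327.Th

/-- homotopy of loops in the punctured plane -/
def LH (a b : Circle → ℂ) : Prop :=
  ∃ H : C(unitInterval × Circle, ℂ), (∀ x, H x ≠ 0) ∧ (∀ ξ, H (0, ξ) = a ξ) ∧ ∀ ξ, H (1, ξ) = b ξ

theorem LH.cont_left {a b : Circle → ℂ} (h : LH a b) : Continuous a := by
  obtain ⟨H, _, h1, _⟩ := h
  have : a = fun ξ => H (0, ξ) := by ext ξ; rw [h1]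
  rw [this]
  fun_prop

theorem LH.ne_left {a b : Circle → ℂ} (h : LH a b) (ξ : Circle) : a ξ ≠ 0 := by
  obtain ⟨H, h0, h1, _⟩ := h
  rw [← h1]; exact h0 _

theorem LH.mk_line {a b : Circle → ℂ} (K : ℝ → Circle → ℂ)
    (hK : ContinuousOn (fun x : ℝ × Circle => K x.1 x.2) (Icc 0 1 ×ˢ univ))
    (h0 : ∀ s ∈ Icc (0 : ℝ) 1, ∀ ξ, K s ξ ≠ 0) (ha : ∀ ξ, K 0 ξ = a ξ) (hb : ∀ ξ, K 1 ξ = b ξ) :
    LH a b := by
  refine ⟨⟨fun x => K x.1 x.2, ?_⟩, ?_, ?_, ?_⟩
  · have h1 : Continuous fun x : unitInterval × Circle => ((x.1 : ℝ), x.2) := by fun_prop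
    exact hK.comp_continuous h1 fun x => ⟨x.1.2, mem_univ _⟩
  · intro x
    exact h0 _ x.1.2 _
  · intro ξ
    simpa using ha ξ
  · intro ξ
    simpa using hb ξ

theorem LH.refl {a : Circle → ℂ} (ha : Continuous a) (h : ∀ ξ, a ξ ≠ 0) : LH a a :=
  LH.mk_line (fun _ ξ => a ξ) (by fun_prop) (fun _ _ ξ => h ξ) (fun _ => rfl) fun _ => rfl

theorem LH.symm {a b : Circle → ℂ} (h : LH a b) : LH b a := by
  obtain ⟨H, h0, h1, h2⟩ := h
  refine ⟨⟨fun x => H (unitInterval.symm x.1, x.2), ?_⟩, ?_, ?_, ?_⟩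
  · fun_prop
  · intro x; exact h0 _
  · intro ξ; simpa using h2 ξ
  · intro ξ; simpa using h1 ξ

/-- the punctured plane -/
abbrev PP : Type := {z : ℂ // z ≠ 0}

theorem LH.trans {a b c : Circle → ℂ} (h : LH a b) (h' : LH b c) : LH a c := by
  obtain ⟨H, h0, h1, h2⟩ := h
  obtain ⟨H', h0', h1', h2'⟩ := h'
  -- use homotopies of maps to the subtype
  let fa : C(Circle, PP) := ⟨fun ξ => ⟨H (0, ξ), h0 _⟩, by fun_prop⟩
  let fb : C(Circle, PP) := ⟨fun ξ => ⟨H (1, ξ), h0 _⟩, by fun_prop⟩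
  let fc : C(Circle, PP) := ⟨fun ξ => ⟨H' (1, ξ), h0' _⟩, by fun_prop⟩
  let G : fa.Homotopy fb :=
    { toFun := fun x => ⟨H x, h0 x⟩
      continuous_toFun := by fun_prop
      map_zero_left := fun ξ => rfl
      map_one_left := fun ξ => rfl }
  let G' : fb.Homotopy fc :=
    { toFun := fun x => ⟨H' x, h0' x⟩
      continuous_toFun := by fun_prop
      map_zero_left := fun ξ => by
        apply Subtype.ext
        change H' (0, ξ) = H (1, ξ)
        rw [h2, h1']
      map_one_left := fun ξ => rfl }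
  let K := G.trans G'
  refine ⟨⟨fun x => (K x).1, by fun_prop⟩, ?_, ?_, ?_⟩
  · intro x; exact (K x).2
  · intro ξ
    change (K (0, ξ)).1 = a ξ
    rw [K.apply_zero]
    exact h1 ξ
  · intro ξ
    change (K (1, ξ)).1 = c ξ
    rw [K.apply_one]
    exact h2' ξ

theorem LH.line {a b : Circle → ℂ} (ha : Continuous a) (hb : Continuous b)
    (h : ∀ s ∈ Icc (0 : ℝ) 1, ∀ ξ, (1 - s : ℂ) * a ξ + s * b ξ ≠ 0) : LH a b := by
  refine LH.mk_line (fun s ξ => (1 - s : ℂ) * a ξ + s * b ξ) ?_ h ?_ ?_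
  · apply Continuous.continuousOn
    have := ha.comp (continuous_snd (X := ℝ) (Y := Circle))
    have := hb.comp (continuous_snd (X := ℝ) (Y := Circle))
    fun_prop
  · intro ξ; simp
  · intro ξ; simp

/-- the standard loop -/
theorem LH.const_mul {c : ℂ} (hc : c ≠ 0) : LH (fun ξ => c * ξ) (fun ξ => ξ) := by
  refine LH.mk_line (fun s ξ => Complex.exp ((1 - s : ℂ) * Complex.log c) * ξ) ?_ ?_ ?_ ?_
  · apply Continuous.continuousOn
    fun_prop
  · intro s _ ξ
    exact mul_ne_zero (Complex.exp_ne_zero _) (Circle.coe_ne_zero ξ)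
  · intro ξ
    simp [Complex.exp_log hc]
  · intro ξ
    simp

theorem circle_norm (ξ : Circle) : ‖(ξ : ℂ)‖ = 1 := Circle.norm_coe ξ

/-- pushing forward homotopies of loops near the origin -/
theorem LH.push {a b : Circle → ℂ} (hab : LH a b) {R : ℝ} {g : ℂ → ℂ}
    (hg : ContinuousOn g (Metric.ball 0 R)) (hg0 : ∀ u ∈ Metric.ball (0 : ℂ) R, u ≠ 0 → g u ≠ 0)
    (ha : ∀ ξ, ‖a ξ‖ < R) (hb : ∀ ξ, ‖b ξ‖ < R) : LH (fun ξ => g (a ξ)) (fun ξ => g (b ξ)) := by
  have hR : 0 < R := lt_of_le_of_lt (norm_nonneg _) (ha 1)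
  -- shrinking a loop
  have key : ∀ c : Circle → ℂ, Continuous c → (∀ ξ, c ξ ≠ 0) → (∀ ξ, ‖c ξ‖ < R) →
      ∀ l : ℝ, 0 < l → l ≤ 1 → LH (fun ξ => g (c ξ)) (fun ξ => g (l * c ξ)) := by
    intro c hc hc0 hcR l hl hl1
    have hpos : ∀ s ∈ Icc (0 : ℝ) 1, 0 < (1 - s) + s * l ∧ (1 - s) + s * l ≤ 1 := by
      intro s hs
      constructor
      · rcases eq_or_lt_of_le hs.1 with h | h
        · rw [← h]; norm_num
        · have := mul_pos h hl
          linarith [hs.2]
      · nlinarith [hs.1, hs.2]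
    refine LH.mk_line (fun s ξ => g ((((1 - s) + s * l : ℝ) : ℂ) * c ξ)) ?_ ?_ ?_ ?_
    · refine hg.comp ?_ ?_
      · apply Continuous.continuousOn
        have := hc.comp (continuous_snd (X := ℝ) (Y := Circle))
        fun_prop
      · rintro ⟨s, ξ⟩ ⟨hs, _⟩
        obtain ⟨h1, h2⟩ := hpos s hs
        simp only [mem_ball_zero_iff, norm_mul, Complex.norm_real, Real.norm_eq_abs, abs_of_pos h1]
        calc ((1 - s) + s * l) * ‖c ξ‖ ≤ 1 * ‖c ξ‖ := by gcongr
          _ < R := by rw [one_mul]; exact hcR ξ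
    · intro s hs ξ
      obtain ⟨h1, h2⟩ := hpos s hs
      apply hg0
      · simp only [mem_ball_zero_iff, norm_mul, Complex.norm_real, Real.norm_eq_abs, abs_of_pos h1]
        calc ((1 - s) + s * l) * ‖c ξ‖ ≤ 1 * ‖c ξ‖ := by gcongr
          _ < R := by rw [one_mul]; exact hcR ξ
      · exact mul_ne_zero (by exact_mod_cast h1.ne') (hc0 ξ)
    · intro ξ; simp
    · intro ξ; simp
  have hab' := hab
  obtain ⟨H, h0, h1, h2⟩ := hab
  obtain ⟨M, hM⟩ : ∃ M : ℝ, ∀ x, ‖H x‖ ≤ M := by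
    obtain ⟨M, hM⟩ := (isCompact_univ (X := unitInterval × Circle)).exists_bound_of_continuousOn
      (f := fun x => H x) (by fun_prop)
    exact ⟨M, fun x => hM x (mem_univ _)⟩
  have hM0 : 0 ≤ M := (norm_nonneg _).trans (hM (0, 1))
  set l : ℝ := min 1 (R / (2 * (M + 1))) with hl
  have hl0 : 0 < l := by
    rw [hl]; apply lt_min one_pos; positivity
  have hl1 : l ≤ 1 := min_le_left _ _
  have hlM : ∀ x, ‖(l : ℂ) * H x‖ < R := by
    intro x
    rw [norm_mul, Complex.norm_real, Real.norm_eq_abs, abs_of_pos hl0]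
    calc l * ‖H x‖ ≤ (R / (2 * (M + 1))) * M := by
          gcongr
          · exact min_le_right _ _
          · exact hM x
      _ < R := by
          rw [div_mul_eq_mul_div, div_lt_iff₀ (by positivity)]
          nlinarith
  have s1 := key a hab'.cont_left hab'.ne_left ha l hl0 hl1
  have s3 := key b hab'.symm.cont_left hab'.symm.ne_left hb l hl0 hl1
  have s2 : LH (fun ξ => g (l * a ξ)) (fun ξ => g (l * b ξ)) := by
    refine ⟨⟨fun x => g ((l : ℂ) * H x), ?_⟩, ?_, ?_, ?_⟩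
    · exact hg.comp_continuous (by fun_prop) fun x => by
        rw [mem_ball_zero_iff]; exact hlM x
    · intro x
      apply hg0
      · rw [mem_ball_zero_iff]; exact hlM x
      · exact mul_ne_zero (by exact_mod_cast hl0.ne') (h0 x)
    · intro ξ; simp [h1]
    · intro ξ; simp [h2]
  exact (s1.trans s2).trans s3.symm

/-- the small circle loop -/
def loop (h : ℂ → ℂ) (z : ℂ) (r : ℝ) : Circle → ℂ := fun ξ => h (z + r * ξ) - h z

theorem op_iff (h : ℂ → ℂ) (z : ℂ) :
    PreservesOrientationAt h z ↔ ∀ᶠ r : ℝ in 𝓝[>] 0, LH (loop h z r) (fun ξ => ξ) := Iff.rfl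

theorem op_congr {h h' : ℂ → ℂ} {z : ℂ} (e : h =ᶠ[𝓝 z] h') :
    PreservesOrientationAt h z ↔ PreservesOrientationAt h' z := by
  obtain ⟨ε, hε, he⟩ := Metric.eventually_nhds_iff_ball.mp e
  rw [op_iff, op_iff]
  apply eventually_congr
  filter_upwards [Ioo_mem_nhdsGT hε] with r hr
  have : loop h z r = loop h' z r := by
    ext ξ
    unfold loop
    rw [he z (Metric.mem_ball_self hε), he]
    rw [Metric.mem_ball, dist_eq_norm, add_sub_cancel_left, norm_mul, circle_norm, mul_one,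
      Complex.norm_real, Real.norm_eq_abs, abs_of_pos hr.1]
    exact hr.2
  rw [this]

theorem loop_homotopic {h : ℂ → ℂ} {z₀ : ℂ} {ρ : ℝ} (hc : ContinuousOn h (Metric.ball z₀ (2 * ρ)))
    (hi : InjOn h (Metric.ball z₀ (2 * ρ))) {z z' : ℂ} {r r' : ℝ} (hz : ‖z - z₀‖ < ρ)
    (hz' : ‖z' - z₀‖ < ρ) (hr : 0 < r) (hr' : 0 < r') (hrρ : r < ρ) (hrρ' : r' < ρ) :
    LH (loop h z r) (loop h z' r') := by
  have hmem : ∀ s ∈ Icc (0 : ℝ) 1, ‖((1 - s : ℂ) * z + s * z') - z₀‖ < ρ := by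
    intro s hs
    have : ((1 - s : ℂ) * z + s * z') - z₀ = (1 - s : ℂ) * (z - z₀) + s * (z' - z₀) := by ring
    rw [this]
    calc ‖(1 - s : ℂ) * (z - z₀) + s * (z' - z₀)‖ ≤ (1 - s) * ‖z - z₀‖ + s * ‖z' - z₀‖ := by
          refine (norm_add_le _ _).trans ?_
          rw [norm_mul, norm_mul]
          have h1 : ‖(1 - s : ℂ)‖ = 1 - s := by
            rw [← Complex.ofReal_one, ← Complex.ofReal_sub, Complex.norm_real, Real.norm_eq_abs,
              abs_of_nonneg (by linarith [hs.2])]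
          have h2 : ‖(s : ℂ)‖ = s := by
            rw [Complex.norm_real, Real.norm_eq_abs, abs_of_nonneg hs.1]
          rw [h1, h2]
      _ < ρ := by
          rcases eq_or_lt_of_le hs.1 with h | h
          · rw [← h]; simpa using hz
          · nlinarith [hs.2, mul_lt_mul_of_pos_left hz' h,
              mul_le_mul_of_nonneg_left hz.le (by linarith [hs.2] : (0 : ℝ) ≤ 1 - s)]
  have hrad : ∀ s ∈ Icc (0 : ℝ) 1, 0 < (1 - s) * r + s * r' ∧ (1 - s) * r + s * r' < ρ := by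
    intro s hs
    rcases eq_or_lt_of_le hs.1 with h | h
    · rw [← h]; simp [hr, hrρ]
    · have h1 : (0 : ℝ) ≤ 1 - s := by linarith [hs.2]
      constructor
      · have := mul_pos h hr'
        have := mul_nonneg h1 hr.le
        linarith
      · nlinarith [mul_lt_mul_of_pos_left hrρ' h, mul_le_mul_of_nonneg_left hrρ.le h1]
  have hb : ∀ s ∈ Icc (0 : ℝ) 1, ∀ ξ : Circle,
      ((1 - s : ℂ) * z + s * z') + (((1 - s) * r + s * r' : ℝ) : ℂ) * ξ
        ∈ Metric.ball z₀ (2 * ρ) := by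
    intro s hs ξ
    rw [Metric.mem_ball, dist_eq_norm]
    have : ((1 - s : ℂ) * z + s * z') + (((1 - s) * r + s * r' : ℝ) : ℂ) * ξ - z₀ =
      (((1 - s : ℂ) * z + s * z') - z₀) + (((1 - s) * r + s * r' : ℝ) : ℂ) * ξ := by ring
    rw [this]
    refine (norm_add_le _ _).trans_lt ?_
    rw [norm_mul, circle_norm, mul_one, Complex.norm_real, Real.norm_eq_abs,
      abs_of_pos (hrad s hs).1]
    linarith [hmem s hs, (hrad s hs).2]
  have hb' : ∀ s ∈ Icc (0 : ℝ) 1, ((1 - s : ℂ) * z + s * z') ∈ Metric.ball z₀ (2 * ρ) := by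
    intro s hs
    rw [Metric.mem_ball, dist_eq_norm]
    linarith [hmem s hs, hr.trans hrρ]
  refine LH.mk_line (fun s ξ => h (((1 - s : ℂ) * z + s * z') +
    (((1 - s) * r + s * r' : ℝ) : ℂ) * ξ) - h ((1 - s : ℂ) * z + s * z')) ?_ ?_ ?_ ?_
  · apply ContinuousOn.sub
    · refine hc.comp ?_ ?_
      · apply Continuous.continuousOn
        fun_prop
      · rintro ⟨s, ξ⟩ ⟨hs, _⟩
        exact hb s hs ξ
    · refine hc.comp ?_ ?_
      · apply Continuous.continuousOn
        fun_prop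
      · rintro ⟨s, ξ⟩ ⟨hs, _⟩
        exact hb' s hs
  · intro s hs ξ he
    have := hi (hb s hs ξ) (hb' s hs) (sub_eq_zero.mp he)
    have h2 : (((1 - s) * r + s * r' : ℝ) : ℂ) * ξ = 0 := by
      simpa using this
    rcases mul_eq_zero.mp h2 with h3 | h3
    · exact (hrad s hs).1.ne' (by exact_mod_cast h3)
    · exact Circle.coe_ne_zero ξ h3
  · intro ξ; simp [loop]
  · intro ξ; simp [loop]

/-- a continuous injective map near `z₀`: the orientation behaviour is locally constant -/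
theorem op_locally_const {h : ℂ → ℂ} {z₀ : ℂ} {ρ : ℝ} (hρ : 0 < ρ)
    (hc : ContinuousOn h (Metric.ball z₀ (2 * ρ))) (hi : InjOn h (Metric.ball z₀ (2 * ρ)))
    {z : ℂ} (hz : ‖z - z₀‖ < ρ) {z' : ℂ} (hz' : ‖z' - z₀‖ < ρ) :
    PreservesOrientationAt h z → PreservesOrientationAt h z' := by
  rw [op_iff, op_iff]
  intro hop
  obtain ⟨r, hr, hr1⟩ := (hop.and (Ioo_mem_nhdsGT hρ)).exists
  filter_upwards [Ioo_mem_nhdsGT hρ] with r' hr'
  exact (loop_homotopic hc hi hz' hz hr'.1 hr1.1 hr'.2 hr1.2).trans hr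

/-- `h` is continuous and injective near `z` -/
def LocInj (h : ℂ → ℂ) (z : ℂ) : Prop :=
  ∃ R > 0, ContinuousOn h (Metric.ball z R) ∧ InjOn h (Metric.ball z R)

theorem op_eventually {h : ℂ → ℂ} {z₀ : ℂ} (hl : LocInj h z₀) :
    ∀ᶠ z in 𝓝 z₀, (PreservesOrientationAt h z₀ ↔ PreservesOrientationAt h z) := by
  obtain ⟨R, hR, hc, hi⟩ := hl
  have h2 : 2 * (R / 2) = R := by ring
  filter_upwards [Metric.ball_mem_nhds z₀ (half_pos hR)] with z hz
  rw [Metric.mem_ball, dist_eq_norm] at hz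
  rw [← h2] at hc hi
  have h0 : ‖z₀ - z₀‖ < R / 2 := by simpa using half_pos hR
  exact ⟨op_locally_const (half_pos hR) hc hi h0 hz, op_locally_const (half_pos hR) hc hi hz h0⟩

/-- on a preconnected set the orientation behaviour of a locally injective map is constant -/
theorem op_preconnected {h : ℂ → ℂ} {U : Set ℂ} (hU : IsPreconnected U)
    (hl : ∀ z ∈ U, LocInj h z) {z z' : ℂ} (hz : z ∈ U) (hz' : z' ∈ U)
    (hop : PreservesOrientationAt h z) : PreservesOrientationAt h z' := by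
  have := hU.induction₂ (fun x y => (PreservesOrientationAt h x ↔ PreservesOrientationAt h y))
    (fun x hx => (op_eventually (hl x hx)).filter_mono nhdsWithin_le_nhds)
    (fun x y z _ _ _ h1 h2 => h1.trans h2) (fun x y _ _ h1 => h1.symm) hz hz'
  exact this.mp hop

/-- composition -/
theorem op_comp {k g : ℂ → ℂ} {z₀ : ℂ} (hk : ContinuousAt k z₀)
    (hkop : PreservesOrientationAt k z₀) (hg : LocInj g (k z₀)) :
    PreservesOrientationAt g (k z₀) ↔ PreservesOrientationAt (fun z => g (k z)) z₀ := by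
  obtain ⟨R, hR, hc, hi⟩ := hg
  -- the translated map
  set G : ℂ → ℂ := fun u => g (k z₀ + u) - g (k z₀) with hG
  have hGc : ContinuousOn G (Metric.ball 0 R) := by
    apply ContinuousOn.sub _ continuousOn_const
    refine hc.comp (by fun_prop) ?_
    intro u hu
    rw [mem_ball_zero_iff] at hu
    rw [Metric.mem_ball, dist_eq_norm, add_sub_cancel_left]
    exact hu
  have hG0 : ∀ u ∈ Metric.ball (0 : ℂ) R, u ≠ 0 → G u ≠ 0 := by
    intro u hu hu0 h0
    rw [mem_ball_zero_iff] at hu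
    have := hi (by rwa [Metric.mem_ball, dist_eq_norm, add_sub_cancel_left])
      (Metric.mem_ball_self hR) (sub_eq_zero.mp h0)
    exact hu0 (by simpa using this)
  -- small radii are mapped into the ball
  have hsmall : ∀ᶠ r : ℝ in 𝓝[>] 0, ∀ ξ : Circle, ‖k (z₀ + r * ξ) - k z₀‖ < R := by
    obtain ⟨δ, hδ, hd⟩ := Metric.continuousAt_iff.mp hk R hR
    filter_upwards [Ioo_mem_nhdsGT hδ] with r hr ξ
    rw [← dist_eq_norm]
    apply hd
    rw [dist_eq_norm, add_sub_cancel_left, norm_mul, circle_norm, mul_one, Complex.norm_real,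
      Real.norm_eq_abs, abs_of_pos hr.1]
    exact hr.2
  rw [op_iff] at hkop
  -- the main comparison
  have main : ∀ᶠ r : ℝ in 𝓝[>] 0, ∀ᶠ l : ℝ in 𝓝[>] 0,
      LH (loop (fun z => g (k z)) z₀ r) (loop g (k z₀) l) := by
    filter_upwards [hkop, hsmall] with r hr1 hr2
    filter_upwards [Ioo_mem_nhdsGT hR] with l hl
    have h1 : LH (loop k z₀ r) (fun ξ => (l : ℂ) * ξ) :=
      hr1.trans (LH.const_mul (by exact_mod_cast hl.1.ne')).symm
    have h2 := h1.push (g := G) hGc hG0 hr2 (fun ξ => by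
      rw [norm_mul, circle_norm, mul_one, Complex.norm_real, Real.norm_eq_abs, abs_of_pos hl.1]
      exact hl.2)
    have e1 : (fun ξ => G (loop k z₀ r ξ)) = loop (fun z => g (k z)) z₀ r := by
      ext ξ
      simp [hG, loop]
    have e2 : (fun ξ : Circle => G ((l : ℂ) * ξ)) = loop g (k z₀) l := by
      ext ξ
      simp [hG, loop]
    rwa [e1, e2] at h2
  rw [op_iff, op_iff]
  constructor
  · intro hgop
    filter_upwards [main] with r hr
    obtain ⟨l, h1, h2⟩ := (hr.and hgop).exists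
    exact h1.trans h2
  · intro hgk
    obtain ⟨r, h1, h2⟩ := (main.and hgk).exists
    filter_upwards [h1] with l hl
    exact hl.symm.trans h2

/-- holomorphic maps with nonzero derivative preserve the orientation -/
theorem op_of_hasDerivAt {h : ℂ → ℂ} {z c : ℂ} (hd : HasDerivAt h c z) (hc : c ≠ 0)
    (hcont : ∀ᶠ x in 𝓝 z, ContinuousAt h x) : PreservesOrientationAt h z := by
  rw [op_iff]
  obtain ⟨ε, hε, he⟩ := Metric.eventually_nhds_iff_ball.mp hcont
  have hd' := (hasDerivAt_iff_isLittleO.mp hd).def (half_pos (norm_pos_iff.mpr hc))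
  obtain ⟨δ, hδ, hd''⟩ := Metric.eventually_nhds_iff_ball.mp hd'
  filter_upwards [Ioo_mem_nhdsGT hε, Ioo_mem_nhdsGT hδ] with r hr1 hr2
  have hr0 : 0 < r := hr1.1
  have hrn : ∀ ξ : Circle, ‖(r : ℂ) * ξ‖ = r := fun ξ => by
    rw [norm_mul, circle_norm, mul_one, Complex.norm_real, Real.norm_eq_abs, abs_of_pos hr0]
  have hbound : ∀ ξ : Circle, ‖loop h z r ξ - (c * r) * ξ‖ ≤ ‖c‖ / 2 * r := by
    intro ξ
    have := hd'' (z + r * ξ) (by
      rw [Metric.mem_ball, dist_eq_norm, add_sub_cancel_left, hrn]; exact hr2.2)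
    rw [add_sub_cancel_left, hrn, smul_eq_mul] at this
    have e : loop h z r ξ - (c * r) * ξ = h (z + r * ξ) - h z - r * ξ * c := by
      unfold loop; ring
    rw [e]
    exact this
  have hlc : Continuous (loop h z r) := by
    unfold loop
    apply Continuous.sub _ continuous_const
    rw [continuous_iff_continuousAt]
    intro ξ
    have h1 : ContinuousAt h (z + r * ξ) := by
      apply he
      rw [Metric.mem_ball, dist_eq_norm, add_sub_cancel_left, hrn]
      exact hr1.2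
    exact ContinuousAt.comp (f := fun ξ : Circle => z + (r : ℂ) * ξ) h1 (by fun_prop)
  have h1 : LH (loop h z r) (fun ξ => (c * r) * ξ) := by
    apply LH.line hlc (by fun_prop)
    intro s hs ξ h0
    have e : (1 - s : ℂ) * loop h z r ξ + s * (c * r * ξ) =
      (c * r) * ξ + (1 - s : ℂ) * (loop h z r ξ - (c * r) * ξ) := by ring
    rw [e] at h0
    have h2 : ‖(c * r) * (ξ : ℂ)‖ = ‖c‖ * r := by
      rw [norm_mul, circle_norm, mul_one, norm_mul, Complex.norm_real, Real.norm_eq_abs,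
        abs_of_pos hr0]
    have h3 : ‖(1 - s : ℂ) * (loop h z r ξ - (c * r) * ξ)‖ ≤ ‖c‖ / 2 * r := by
      rw [norm_mul]
      have : ‖(1 - s : ℂ)‖ ≤ 1 := by
        rw [← Complex.ofReal_one, ← Complex.ofReal_sub, Complex.norm_real, Real.norm_eq_abs,
          abs_of_nonneg (by linarith [hs.2])]
        linarith [hs.1]
      calc _ ≤ 1 * (‖c‖ / 2 * r) := by
            gcongr
            exact hbound ξ
        _ = _ := one_mul _
    have h4 : ‖(c * r) * (ξ : ℂ)‖ = ‖(1 - s : ℂ) * (loop h z r ξ - (c * r) * ξ)‖ := by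
      have := congrArg norm (eq_neg_of_add_eq_zero_left h0)
      rwa [norm_neg] at this
    have h5 : 0 < ‖c‖ * r := mul_pos (norm_pos_iff.mpr hc) hr0
    rw [h2] at h4
    linarith
  exact h1.trans (LH.const_mul (mul_ne_zero hc (by exact_mod_cast hr0.ne')))

/-- maps of the form `z ↦ ρ z` with positive `ρ` preserve the orientation at the origin -/
theorem op_of_pos {h : ℂ → ℂ} {R : ℝ} (hR : 0 < R) (hc : ContinuousOn h (Metric.ball 0 R))
    (hpos : ∀ z ∈ Metric.ball (0 : ℂ) R, ∃ ρ : ℝ, 0 < ρ ∧ h z = ρ * z) :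
    PreservesOrientationAt h 0 := by
  rw [op_iff]
  have h0 : h 0 = 0 := by
    obtain ⟨ρ, _, h⟩ := hpos 0 (Metric.mem_ball_self hR)
    simpa using h
  filter_upwards [Ioo_mem_nhdsGT hR] with r hr
  have hmem : ∀ ξ : Circle, (0 + r * ξ : ℂ) ∈ Metric.ball (0 : ℂ) R := by
    intro ξ
    rw [zero_add, mem_ball_zero_iff, norm_mul, circle_norm, mul_one, Complex.norm_real,
      Real.norm_eq_abs, abs_of_pos hr.1]
    exact hr.2
  apply LH.line
  · unfold loop
    apply Continuous.sub _ continuous_const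
    exact hc.comp_continuous (by fun_prop) hmem
  · fun_prop
  · intro s hs ξ h1
    obtain ⟨ρ, hρ, h2⟩ := hpos _ (hmem ξ)
    unfold loop at h1
    rw [h2, h0, zero_add, sub_zero] at h1
    have h3 : (((1 - s) * (ρ * r) + s : ℝ) : ℂ) * (ξ : ℂ) = 0 := by
      rw [← h1]; push_cast; ring
    rcases mul_eq_zero.mp h3 with h4 | h4
    · have h5 : (1 - s) * (ρ * r) + s = 0 := by exact_mod_cast h4
      have h6 := mul_pos hρ hr.1
      rcases eq_or_lt_of_le hs.1 with h | h
      · rw [← h] at h5; simp at h5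
        rcases h5 with h5 | h5
        · exact hρ.ne' h5
        · exact hr.1.ne' h5
      · have := mul_nonneg (by linarith [hs.2] : (0 : ℝ) ≤ 1 - s) h6.le
        linarith
    · exact Circle.coe_ne_zero ξ h4

end Pool.Agent.Run7.h327.Th
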