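import Mathlib
import Pool.Agent.Run7.h327.Th.Def

set_option autoImplicit false

open Set Filter Topology

namespace Pool.Agent.Run7.h327.Th

abbrev V3 : Type := EuclideanSpace ℝ (Fin 3)

/-- piecewise linear squaring map of the plane -/
def T1 (x y : ℝ) : ℝ := |x| - |y|
def T2 (x y : ℝ) : ℝ := |x + y| - |x - y|

theorem T2_nonneg_cases {x y : ℝ} (hx : 0 ≤ x) (hy : 0 ≤ y) :
    (x ≤ y ∧ T2 x y = 2 * x) ∨ (y ≤ x ∧ T2 x y = 2 * y) := by
  unfold T2
  rw [abs_of_nonneg (add_nonneg hx hy)]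
  rcases le_total x y with h | h
  · left; refine ⟨h, ?_⟩
    rw [abs_of_nonpos (by linarith)]; ring
  · right; refine ⟨h, ?_⟩
    rw [abs_of_nonneg (by linarith)]; ring

theorem T2_neg_left (x y : ℝ) : T2 (-x) y = - T2 x y := by
  unfold T2
  rw [show -x + y = -(x - y) by ring, show -x - y = -(x + y) by ring, abs_neg, abs_neg]; ring

theorem T2_neg_right (x y : ℝ) : T2 x (-y) = - T2 x y := by
  unfold T2
  rw [show x + -y = x - y by ring, show x - -y = x + y by ring]; ring

theorem T1_neg_left (x y : ℝ) : T1 (-x) y = T1 x y := by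
  unfold T1; rw [abs_neg]

theorem T1_neg_right (x y : ℝ) : T1 x (-y) = T1 x y := by
  unfold T1; rw [abs_neg]

theorem T_norm (x y : ℝ) : |T1 x y| + |T2 x y| = |x| + |y| := by
  unfold T1 T2
  rcases abs_cases x with ⟨h1, h1'⟩ | ⟨h1, h1'⟩ <;> rcases abs_cases y with ⟨h2, h2'⟩ | ⟨h2, h2'⟩ <;>
    rcases abs_cases (x + y) with ⟨h3, h3'⟩ | ⟨h3, h3'⟩ <;>
    rcases abs_cases (x - y) with ⟨h4, h4'⟩ | ⟨h4, h4'⟩ <;>
    rw [h1, h2, h3, h4] <;> simp only [abs_eq_max_neg, max_def] <;>
    split_ifs <;> linarith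

theorem T_inj {x y x' y' : ℝ} (h1 : T1 x y = T1 x' y') (h2 : T2 x y = T2 x' y') :
    (x' = x ∧ y' = y) ∨ (x' = -x ∧ y' = -y) := by
  have hx : |x| = |x'| := by
    have a1 := T_norm x y
    have a2 := T_norm x' y'
    rw [h1, h2] at a1
    unfold T1 at h1
    linarith
  have hy : |y| = |y'| := by
    unfold T1 at h1; linarith
  rcases abs_eq_abs.mp hx with e | e <;> rcases abs_eq_abs.mp hy with e' | e'
  · left; exact ⟨e.symm, e'.symm⟩
  · subst e; subst e'
    rw [T2_neg_right] at h2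
    have h3 : T2 x y' = 0 := by linarith
    unfold T2 at h3
    have h4 : |x + y'| = |x - y'| := by linarith
    rcases abs_eq_abs.mp h4 with h5 | h5
    · have : y' = 0 := by linarith
      subst this; left; simp
    · have : x = 0 := by linarith
      subst this; right; simp
  · subst e; subst e'
    rw [T2_neg_left] at h2
    have h3 : T2 x' y = 0 := by linarith
    unfold T2 at h3
    have h4 : |x' + y| = |x' - y| := by linarith
    rcases abs_eq_abs.mp h4 with h5 | h5
    · have : y = 0 := by linarith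
      subst this; right; simp
    · have : x' = 0 := by linarith
      subst this; left; simp
  · right; constructor <;> linarith

theorem T_surj (p q : ℝ) : ∃ x y, T1 x y = p ∧ T2 x y = q := by
  have key : ∀ q, 0 ≤ q → ∃ x y, T1 x y = p ∧ T2 x y = q := by
    intro q hq
    refine ⟨q / 2 + max p 0, q / 2 + max (-p) 0, ?_, ?_⟩
    · unfold T1
      rw [abs_of_nonneg (by positivity), abs_of_nonneg (by positivity)]
      rcases le_total p 0 with h | h
      · rw [max_eq_right h, max_eq_left (by linarith : (0 : ℝ) ≤ -p)]; ring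
      · rw [max_eq_left h, max_eq_right (by linarith : -p ≤ (0 : ℝ))]; ring
    · unfold T2
      rw [abs_of_nonneg (by positivity)]
      rcases le_total p 0 with h | h
      · rw [max_eq_right h, max_eq_left (by linarith : (0 : ℝ) ≤ -p),
          abs_of_nonpos (by linarith)]; ring
      · rw [max_eq_left h, max_eq_right (by linarith : -p ≤ (0 : ℝ)),
          abs_of_nonneg (by linarith)]; ring
  rcases le_total 0 q with h | h
  · exact key q h
  · obtain ⟨x, y, h1, h2⟩ := key (-q) (by linarith)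
    exact ⟨x, -y, by rw [T1_neg_right, h1], by rw [T2_neg_right, h2]; ring⟩

theorem T1_smul {l : ℝ} (hl : 0 ≤ l) (x y : ℝ) : T1 (l * x) (l * y) = l * T1 x y := by
  unfold T1; rw [abs_mul, abs_mul, abs_of_nonneg hl]; ring

theorem T2_smul {l : ℝ} (hl : 0 ≤ l) (x y : ℝ) : T2 (l * x) (l * y) = l * T2 x y := by
  unfold T2; rw [← mul_add, ← mul_sub, abs_mul, abs_mul, abs_of_nonneg hl]; ring

/-- the homogeneous piecewise linear map -/
noncomputable def F (x : V3) : V3 :=
  !₂[T1 (x 0) (x 1), T1 (x 2) (T2 (x 0) (x 1)), -T2 (x 2) (T2 (x 0) (x 1))]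

@[simp] theorem F_zero (x : V3) : F x 0 = T1 (x 0) (x 1) := by simp [F]
@[simp] theorem F_one (x : V3) : F x 1 = T1 (x 2) (T2 (x 0) (x 1)) := by simp [F]
@[simp] theorem F_two (x : V3) : F x 2 = -T2 (x 2) (T2 (x 0) (x 1)) := by simp [F]

theorem v3_ext {x y : V3} (h0 : x 0 = y 0) (h1 : x 1 = y 1) (h2 : x 2 = y 2) : x = y := by
  ext i
  fin_cases i
  · exact h0
  · exact h1
  · exact h2

theorem F_smul {l : ℝ} (hl : 0 ≤ l) (x : V3) : F (l • x) = l • F x := by
  apply v3_ext
  · simp [T1_smul hl]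
  · simp only [F_one, PiLp.smul_apply, smul_eq_mul, T2_smul hl, T1_smul hl]
  · simp only [F_two, PiLp.smul_apply, smul_eq_mul, T2_smul hl]; ring

def l1 (x : V3) : ℝ := |x 0| + |x 1| + |x 2|

theorem l1_F (x : V3) : l1 (F x) = l1 x := by
  unfold l1
  rw [F_zero, F_one, F_two, abs_neg]
  have h1 := T_norm (x 0) (x 1)
  have h2 := T_norm (x 2) (T2 (x 0) (x 1))
  linarith

theorem l1_eq_zero {x : V3} : l1 x = 0 ↔ x = 0 := by
  constructor
  · intro h
    unfold l1 at h
    have h0 := abs_nonneg (x 0)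
    have h1 := abs_nonneg (x 1)
    have h2 := abs_nonneg (x 2)
    apply v3_ext
    · exact abs_eq_zero.mp (by linarith)
    · exact abs_eq_zero.mp (by linarith)
    · exact abs_eq_zero.mp (by linarith)
  · rintro rfl
    simp [l1]

theorem l1_nonneg (x : V3) : 0 ≤ l1 x := by unfold l1; positivity

theorem l1_smul {l : ℝ} (hl : 0 ≤ l) (x : V3) : l1 (l • x) = l * l1 x := by
  unfold l1
  simp only [PiLp.smul_apply, smul_eq_mul, abs_mul, abs_of_nonneg hl]; ring

theorem F_ne {x : V3} (hx : x ≠ 0) : F x ≠ 0 := by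
  intro h
  apply hx
  rw [← l1_eq_zero, ← l1_F, h]
  simp [l1]

theorem continuous_F : Continuous F := by
  unfold F T1 T2
  fun_prop

theorem F_surj (y : V3) : ∃ x, F x = y := by
  obtain ⟨c, h, e1, e2⟩ := T_surj (y 1) (-(y 2))
  obtain ⟨a, b, e3, e4⟩ := T_surj (y 0) h
  refine ⟨!₂[a, b, c], ?_⟩
  apply v3_ext
  · simp [e3]
  · simp [e4, e1]
  · simp [e4, e2]

/-- the three half-turns -/
noncomputable def g1 (x : V3) : V3 := !₂[x 0, -x 1, -x 2]
noncomputable def g2 (x : V3) : V3 := !₂[-x 0, x 1, -x 2]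
noncomputable def g3 (x : V3) : V3 := !₂[-x 0, -x 1, x 2]

theorem F_inj {x y : V3} (h : F x = F y) : y = x ∨ y = g1 x ∨ y = g2 x ∨ y = g3 x := by
  have h0 : T1 (x 0) (x 1) = T1 (y 0) (y 1) := by
    have := congrArg (fun v : V3 => v 0) h; simpa using this
  have h1 : T1 (x 2) (T2 (x 0) (x 1)) = T1 (y 2) (T2 (y 0) (y 1)) := by
    have := congrArg (fun v : V3 => v 1) h; simpa using this
  have h2 : T2 (x 2) (T2 (x 0) (x 1)) = T2 (y 2) (T2 (y 0) (y 1)) := by
    have := congrArg (fun v : V3 => v 2) h; simpa using this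
  rcases T_inj h1 h2 with ⟨e1, e2⟩ | ⟨e1, e2⟩
  · rcases T_inj h0 e2.symm with ⟨e3, e4⟩ | ⟨e3, e4⟩
    · left; exact v3_ext e3 e4 e1
    · right; right; right
      apply v3_ext <;> simp [g3, e1, e3, e4]
  · rw [← T2_neg_right] at e2
    rw [← T1_neg_right] at h0
    rcases T_inj h0 e2.symm with ⟨e3, e4⟩ | ⟨e3, e4⟩
    · right; left
      apply v3_ext <;> simp [g1, e1, e3, e4]
    · right; right; left
      apply v3_ext <;> simp [g2, e1, e3, e4]

theorem F_g1 (x : V3) : F (g1 x) = F x := by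
  apply v3_ext
  · simp [g1, T1_neg_right]
  · simp [g1, T1_neg_right, T1_neg_left, T2_neg_right]
  · simp [g1, T2_neg_left, T2_neg_right]

theorem F_g2 (x : V3) : F (g2 x) = F x := by
  apply v3_ext
  · simp [g2, T1_neg_left]
  · simp [g2, T1_neg_right, T1_neg_left, T2_neg_left]
  · simp [g2, T2_neg_left, T2_neg_right]

theorem F_g3 (x : V3) : F (g3 x) = F x := by
  apply v3_ext
  · simp [g3, T1_neg_left, T1_neg_right]
  · simp [g3, T2_neg_left, T2_neg_right]
  · simp [g3, T2_neg_left, T2_neg_right]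

/-- the direction of a vector -/
noncomputable def dir (x : V3) (hx : x ≠ 0) : S2 :=
  ⟨‖x‖⁻¹ • x, by
    rw [mem_sphere_zero_iff_norm, norm_smul, norm_inv, norm_norm,
      inv_mul_cancel₀ (norm_ne_zero_iff.mpr hx)]⟩

theorem ne_zero_S2 (v : S2) : (v : V3) ≠ 0 := by
  intro h
  have := mem_sphere_zero_iff_norm.mp v.2
  rw [h] at this
  simp at this

theorem norm_S2 (v : S2) : ‖(v : V3)‖ = 1 := mem_sphere_zero_iff_norm.mp v.2

/-- the expanding Thurston map -/
noncomputable def f (v : S2) : S2 := dir (F v) (F_ne (ne_zero_S2 v))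

theorem f_coe (v : S2) : (f v : V3) = ‖F v‖⁻¹ • F v := rfl

theorem norm_F_pos (v : S2) : 0 < ‖F (v : V3)‖ := norm_pos_iff.mpr (F_ne (ne_zero_S2 v))

theorem continuous_f : Continuous f := by
  apply Continuous.subtype_mk
  have h := continuous_F.comp (continuous_subtype_val (p := fun x : V3 => x ∈ Metric.sphere (0 : V3) 1))
  exact Continuous.smul (h.norm.inv₀ fun v => (norm_F_pos v).ne') h

theorem norm_g1 (x : V3) : ‖g1 x‖ = ‖x‖ := by
  rw [EuclideanSpace.norm_eq, EuclideanSpace.norm_eq]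
  simp [Fin.sum_univ_three, g1]

theorem norm_g2 (x : V3) : ‖g2 x‖ = ‖x‖ := by
  rw [EuclideanSpace.norm_eq, EuclideanSpace.norm_eq]
  simp [Fin.sum_univ_three, g2]

theorem norm_g3 (x : V3) : ‖g3 x‖ = ‖x‖ := by
  rw [EuclideanSpace.norm_eq, EuclideanSpace.norm_eq]
  simp [Fin.sum_univ_three, g3]

theorem continuous_g1 : Continuous g1 := by unfold g1; fun_prop
theorem continuous_g2 : Continuous g2 := by unfold g2; fun_prop
theorem continuous_g3 : Continuous g3 := by unfold g3; fun_prop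

theorem g1_g1 (x : V3) : g1 (g1 x) = x := by apply v3_ext <;> simp [g1]
theorem g2_g2 (x : V3) : g2 (g2 x) = x := by apply v3_ext <;> simp [g2]
theorem g3_g3 (x : V3) : g3 (g3 x) = x := by apply v3_ext <;> simp [g3]

/-- a norm-preserving continuous involution of `ℝ³` acts on the sphere -/
def onS2 (g : V3 → V3) (hn : ∀ x, ‖g x‖ = ‖x‖) (hc : Continuous g) (hi : ∀ x, g (g x) = x) :
    S2 ≃ₜ S2 where
  toFun v := ⟨g v, by rw [mem_sphere_zero_iff_norm, hn]; exact norm_S2 v⟩
  invFun v := ⟨g v, by rw [mem_sphere_zero_iff_norm, hn]; exact norm_S2 v⟩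
  left_inv v := Subtype.ext (hi v)
  right_inv v := Subtype.ext (hi v)
  continuous_toFun := (hc.comp continuous_subtype_val).subtype_mk _
  continuous_invFun := (hc.comp continuous_subtype_val).subtype_mk _

noncomputable def s1 : S2 ≃ₜ S2 := onS2 g1 norm_g1 continuous_g1 g1_g1
noncomputable def s2 : S2 ≃ₜ S2 := onS2 g2 norm_g2 continuous_g2 g2_g2
noncomputable def s3 : S2 ≃ₜ S2 := onS2 g3 norm_g3 continuous_g3 g3_g3

theorem s1_coe (v : S2) : (s1 v : V3) = g1 v := rfl
theorem s2_coe (v : S2) : (s2 v : V3) = g2 v := rfl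
theorem s3_coe (v : S2) : (s3 v : V3) = g3 v := rfl

theorem f_s1 (v : S2) : f (s1 v) = f v := by
  apply Subtype.ext
  rw [f_coe, f_coe, s1_coe, F_g1]

theorem f_s2 (v : S2) : f (s2 v) = f v := by
  apply Subtype.ext
  rw [f_coe, f_coe, s2_coe, F_g2]

theorem f_s3 (v : S2) : f (s3 v) = f v := by
  apply Subtype.ext
  rw [f_coe, f_coe, s3_coe, F_g3]

theorem g1_smul (l : ℝ) (x : V3) : g1 (l • x) = l • g1 x := by
  apply v3_ext <;> simp [g1]
theorem g2_smul (l : ℝ) (x : V3) : g2 (l • x) = l • g2 x := by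
  apply v3_ext <;> simp [g2]
theorem g3_smul (l : ℝ) (x : V3) : g3 (l • x) = l • g3 x := by
  apply v3_ext <;> simp [g3]

theorem f_inj {v v' : S2} (h : f v = f v') : v' = v ∨ v' = s1 v ∨ v' = s2 v ∨ v' = s3 v := by
  have h1 : ‖F (v : V3)‖⁻¹ • F v = ‖F (v' : V3)‖⁻¹ • F v' := congrArg Subtype.val h
  set l : ℝ := ‖F (v' : V3)‖ * ‖F (v : V3)‖⁻¹ with hl
  have hl0 : 0 < l := mul_pos (norm_F_pos v') (inv_pos.mpr (norm_F_pos v))
  have h2 : F (l • (v : V3)) = F v' := by
    rw [F_smul hl0.le, hl, mul_smul, h1, smul_smul, mul_inv_cancel₀ (norm_F_pos v').ne', one_smul]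
  have key : ∀ g : V3 → V3, (∀ x, ‖g x‖ = ‖x‖) → (v' : V3) = g (l • (v : V3)) → l = 1 := by
    intro g hg e
    have := congrArg norm e
    rw [hg, norm_smul, norm_S2, norm_S2, mul_one, Real.norm_eq_abs, abs_of_pos hl0] at this
    exact this.symm
  rcases F_inj h2 with e | e | e | e
  · have := key id (fun _ => rfl) e
    rw [this, one_smul] at e
    left; exact Subtype.ext e
  · have := key g1 norm_g1 e
    rw [this, one_smul] at e
    right; left; exact Subtype.ext e
  · have := key g2 norm_g2 e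
    rw [this, one_smul] at e
    right; right; left; exact Subtype.ext e
  · have := key g3 norm_g3 e
    rw [this, one_smul] at e
    right; right; right; exact Subtype.ext e

theorem f_surj : Function.Surjective f := by
  intro u
  obtain ⟨x, hx⟩ := F_surj u
  have hx0 : x ≠ 0 := by
    rintro rfl
    have : F (0 : V3) = 0 := by
      rw [← l1_eq_zero, l1_F, l1_eq_zero]
    rw [this] at hx
    exact ne_zero_S2 u hx.symm
  refine ⟨dir x hx0, ?_⟩
  apply Subtype.ext
  have hn : 0 < ‖x‖ := norm_pos_iff.mpr hx0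
  rw [f_coe]
  change ‖F (‖x‖⁻¹ • x)‖⁻¹ • F (‖x‖⁻¹ • x) = u
  rw [F_smul (inv_nonneg.mpr hn.le), hx, norm_smul, norm_S2, mul_one, norm_inv, norm_norm, inv_inv,
    smul_smul, mul_inv_cancel₀ hn.ne', one_smul]

theorem isOpenMap_f : IsOpenMap f := by
  intro U hU
  have h1 : f ⁻¹' (f '' U) = U ∪ s1 ⁻¹' U ∪ s2 ⁻¹' U ∪ s3 ⁻¹' U := by
    ext v
    constructor
    · rintro ⟨u, hu, e⟩
      rcases f_inj e.symm with h | h | h | h
      · left; left; left; rw [← h]; exact hu
      · left; left; right; rw [mem_preimage, ← h]; exact hu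
      · left; right; rw [mem_preimage, ← h]; exact hu
      · right; rw [mem_preimage, ← h]; exact hu
    · rintro (((h | h) | h) | h)
      · exact ⟨v, h, rfl⟩
      · exact ⟨_, h, f_s1 v⟩
      · exact ⟨_, h, f_s2 v⟩
      · exact ⟨_, h, f_s3 v⟩
  have h2 : IsOpen (f ⁻¹' (f '' U)) := by
    rw [h1]
    exact ((hU.union (hU.preimage s1.continuous)).union (hU.preimage s2.continuous)).union
      (hU.preimage s3.continuous)
  have hq : IsQuotientMap f := (continuous_f.isClosedMap).isQuotientMap continuous_f f_surj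
  exact hq.isOpen_preimage.mp h2

end Pool.Agent.Run7.h327.Th
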