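import Mathlib
import Pool.Agent.Run7.h327.Th.Map

set_option autoImplicit false

open Set Filter Topology

namespace Pool.Agent.Run7.h327.Th

theorem den_pos (w : ℂ) : (0 : ℝ) < ‖w‖ ^ 2 + 1 := by positivity

theorem sq_norm' (w : ℂ) : ‖w‖ ^ 2 = w.re ^ 2 + w.im ^ 2 := by
  rw [Complex.sq_norm, Complex.normSq_apply]; ring

@[simp] theorem unstereo_zero (w : ℂ) : (unstereo w : V3) 0 = 2 * w.re / (‖w‖ ^ 2 + 1) := by
  simp [unstereo]
@[simp] theorem unstereo_one (w : ℂ) : (unstereo w : V3) 1 = 2 * w.im / (‖w‖ ^ 2 + 1) := by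
  simp [unstereo]
@[simp] theorem unstereo_two (w : ℂ) :
    (unstereo w : V3) 2 = (‖w‖ ^ 2 - 1) / (‖w‖ ^ 2 + 1) := by
  simp [unstereo]

theorem unstereo_two_lt (w : ℂ) : (unstereo w : V3) 2 < 1 := by
  rw [unstereo_two, div_lt_one (den_pos w)]; linarith

theorem sum_sq (v : S2) : (v : V3) 0 ^ 2 + (v : V3) 1 ^ 2 + (v : V3) 2 ^ 2 = 1 := by
  have h := norm_S2 v
  rw [EuclideanSpace.norm_eq, Real.sqrt_eq_one] at h
  simpa [Fin.sum_univ_three] using h

theorem two_le_one (v : S2) : (v : V3) 2 ≤ 1 := by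
  nlinarith [sum_sq v, sq_nonneg ((v : V3) 0), sq_nonneg ((v : V3) 1), sq_nonneg ((v : V3) 2 - 1)]

/-- stereographic projection -/
noncomputable def st (v : S2) : ℂ := ⟨(v : V3) 0 / (1 - (v : V3) 2), (v : V3) 1 / (1 - (v : V3) 2)⟩

theorem st_unstereo (w : ℂ) : st (unstereo w) = w := by
  have h := den_pos w
  have h1 : 1 - (unstereo w : V3) 2 = 2 / (‖w‖ ^ 2 + 1) := by
    rw [unstereo_two]; field_simp; ring
  apply Complex.ext
  · simp only [st]
    rw [h1, unstereo_zero]; field_simp
  · simp only [st]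
    rw [h1, unstereo_one]; field_simp

theorem unstereo_injective : Function.Injective unstereo :=
  Function.LeftInverse.injective st_unstereo

theorem unstereo_st {v : S2} (hv : (v : V3) 2 ≠ 1) : unstereo (st v) = v := by
  have h1 : 1 - (v : V3) 2 ≠ 0 := fun h => hv (by linarith)
  have h2 : ‖st v‖ ^ 2 + 1 = 2 / (1 - (v : V3) 2) := by
    rw [sq_norm']
    simp only [st]
    have := sum_sq v
    field_simp
    linear_combination this
  have h3 : ‖st v‖ ^ 2 - 1 = 2 / (1 - (v : V3) 2) - 2 := by rw [← h2]; ring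
  apply Subtype.ext
  apply v3_ext
  · rw [unstereo_zero, h2]; simp only [st]; field_simp
  · rw [unstereo_one, h2]; simp only [st]; field_simp
  · rw [unstereo_two, h2, h3]; field_simp; ring

theorem continuous_unstereo : Continuous unstereo := by
  apply Continuous.subtype_mk
  have h : ∀ w : ℂ, ‖w‖ ^ 2 + 1 ≠ 0 := fun w => (den_pos w).ne'
  have h0 : Continuous fun w : ℂ => 2 * w.re / (‖w‖ ^ 2 + 1) := by
    refine Continuous.div (by fun_prop) (by fun_prop) h
  have h1 : Continuous fun w : ℂ => 2 * w.im / (‖w‖ ^ 2 + 1) := by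
    refine Continuous.div (by fun_prop) (by fun_prop) h
  have h2 : Continuous fun w : ℂ => (‖w‖ ^ 2 - 1) / (‖w‖ ^ 2 + 1) := by
    refine Continuous.div (by fun_prop) (by fun_prop) h
  fun_prop

theorem continuousOn_st : ContinuousOn st {v : S2 | (v : V3) 2 ≠ 1} := by
  have e : st = fun v : S2 => Complex.equivRealProdCLM.symm
      ((v : V3) 0 / (1 - (v : V3) 2), (v : V3) 1 / (1 - (v : V3) 2)) := by
    ext v
    apply Complex.ext <;> simp [st]
  rw [e]
  apply Complex.equivRealProdCLM.symm.continuous.comp_continuousOn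
  have h : ∀ v ∈ {v : S2 | (v : V3) 2 ≠ 1}, 1 - (v : V3) 2 ≠ 0 := fun v hv h => hv (by linarith)
  apply ContinuousOn.prodMk
  · exact ContinuousOn.div (by fun_prop) (by fun_prop) h
  · exact ContinuousOn.div (by fun_prop) (by fun_prop) h

/-- stereographic projection as a chart -/
noncomputable def stH : OpenPartialHomeomorph S2 ℂ where
  toFun := st
  invFun := unstereo
  source := {v : S2 | (v : V3) 2 ≠ 1}
  target := univ
  map_source' _ _ := mem_univ _
  map_target' w _ := (unstereo_two_lt w).ne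
  left_inv' _ hv := unstereo_st hv
  right_inv' w _ := st_unstereo w
  open_source := isOpen_ne_fun (by fun_prop) (by fun_prop)
  open_target := isOpen_univ
  continuousOn_toFun := continuousOn_st
  continuousOn_invFun := continuous_unstereo.continuousOn

theorem stH_coe : ⇑stH = st := rfl
theorem stH_symm : ⇑stH.symm = unstereo := rfl
theorem stH_source : stH.source = {v : S2 | (v : V3) 2 ≠ 1} := rfl

theorem unstereo_neg (w : ℂ) : unstereo (-w) = s3 (unstereo w) := by
  apply Subtype.ext
  rw [s3_coe]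
  apply v3_ext
  · simp [g3]; ring
  · simp [g3]; ring
  · simp [g3]

theorem unstereo_inv {w : ℂ} (hw : w ≠ 0) : unstereo w⁻¹ = s1 (unstereo w) := by
  have h : ‖w‖ ≠ 0 := norm_ne_zero_iff.mpr hw
  have h2 : Complex.normSq w = ‖w‖ ^ 2 := (Complex.sq_norm w).symm
  have h3 : ‖w‖ ^ 2 + 1 ≠ 0 := (den_pos w).ne'
  have h4 : (‖w‖⁻¹) ^ 2 + 1 = (‖w‖ ^ 2 + 1) / ‖w‖ ^ 2 := by field_simp; ring
  apply Subtype.ext
  rw [s1_coe]
  apply v3_ext
  · rw [unstereo_zero, norm_inv, h4, Complex.inv_re, h2]
    simp only [g1]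
    simp
    field_simp
  · rw [unstereo_one, norm_inv, h4, Complex.inv_im, h2]
    simp only [g1]
    simp
    field_simp
  · rw [unstereo_two, norm_inv, h4]
    simp only [g1]
    simp
    field_simp
    ring

theorem unstereo_neg_inv {w : ℂ} (hw : w ≠ 0) : unstereo (-w⁻¹) = s2 (unstereo w) := by
  rw [unstereo_neg, unstereo_inv hw]
  apply Subtype.ext
  rw [s3_coe, s1_coe, s2_coe]
  apply v3_ext <;> simp [g1, g2, g3]

theorem sq_eq_one_iff_of_side_cond {z : ℂ} (h : z ^ 2 = 1) : z = 1 ∨ z = -1 :=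
  sq_eq_sq_iff_eq_or_eq_neg.mp (by rw [h]; norm_num)

/-- the fibres of `f` in the coordinate `w` -/
theorem f_unstereo_eq {w w' : ℂ} :
    f (unstereo w) = f (unstereo w') ↔ w' ^ 2 = w ^ 2 ∨ w ^ 2 * w' ^ 2 = 1 := by
  constructor
  · intro h
    rcases f_inj h with h | h | h | h
    · left; rw [unstereo_injective h]
    · by_cases hw : w = 0
      · exfalso
        have h2 : (unstereo w' : V3) 2 = 1 := by
          rw [h, s1_coe, hw]
          simp [g1]
        exact (unstereo_two_lt w').ne h2
      · rw [← unstereo_inv hw] at h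
        right
        rw [unstereo_injective h]
        field_simp
    · by_cases hw : w = 0
      · exfalso
        have h2 : (unstereo w' : V3) 2 = 1 := by
          rw [h, s2_coe, hw]
          simp [g2]
        exact (unstereo_two_lt w').ne h2
      · rw [← unstereo_neg_inv hw] at h
        right
        rw [unstereo_injective h]
        field_simp
    · rw [← unstereo_neg] at h
      left
      rw [unstereo_injective h]
      ring
  · rintro (h | h)
    · rcases sq_eq_sq_iff_eq_or_eq_neg.mp h with h | h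
      · rw [h]
      · rw [h, unstereo_neg, f_s3]
    · have hw : w ≠ 0 := by
        rintro rfl; simp at h
      have h2 : (w * w') ^ 2 = 1 := by rw [mul_pow]; exact h
      rcases sq_eq_one_iff_of_side_cond h2 with h | h
      · have : w' = w⁻¹ := eq_inv_of_mul_eq_one_right h
        rw [this, unstereo_inv hw, f_s1]
      · have : w' = -w⁻¹ := by
          field_simp
          linear_combination h
        rw [this, unstereo_neg_inv hw, f_s2]

end Pool.Agent.Run7.h327.Th
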