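import Mathlib
import Pool.Agent.Run7.h327.Th.Stereo
import Pool.Agent.Run7.h327.Th.Orient

set_option autoImplicit false

open Set Filter Topology

namespace Pool.Agent.Run7.h327.Th

/-- `f` in the coordinate `w` -/
noncomputable def fh (w : ℂ) : ℂ := st (f (unstereo w))

noncomputable def tau (w : ℂ) : ℂ := ((2 / (1 - ‖w‖ ^ 2) : ℝ) : ℂ) * w
noncomputable def sigma (z : ℂ) : ℂ := (((1 + √(1 + ‖z‖ ^ 2))⁻¹ : ℝ) : ℂ) * z
noncomputable def aff (z : ℂ) : ℂ := ⟨(z.re + z.im) / 2, (1 + 2 * z.im) / 2⟩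

theorem sigma_tau {w : ℂ} (hw : ‖w‖ < 1) : sigma (tau w) = w := by
  have h1 : 0 < 1 - ‖w‖ ^ 2 := by nlinarith [norm_nonneg w]
  have h2 : ‖tau w‖ = 2 / (1 - ‖w‖ ^ 2) * ‖w‖ := by
    unfold tau
    rw [norm_mul, Complex.norm_real, Real.norm_eq_abs, abs_of_pos (by positivity)]
  have h3 : √(1 + ‖tau w‖ ^ 2) = (1 + ‖w‖ ^ 2) / (1 - ‖w‖ ^ 2) := by
    rw [show 1 + ‖tau w‖ ^ 2 = ((1 + ‖w‖ ^ 2) / (1 - ‖w‖ ^ 2)) ^ 2 by
      rw [h2]; field_simp; ring]
    exact Real.sqrt_sq (by positivity)
  unfold sigma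
  rw [h3]
  unfold tau
  rw [← mul_assoc, ← Complex.ofReal_mul]
  have : (1 + (1 + ‖w‖ ^ 2) / (1 - ‖w‖ ^ 2))⁻¹ * (2 / (1 - ‖w‖ ^ 2)) = 1 := by
    field_simp
    ring
  rw [this]
  simp

theorem tau_sigma (z : ℂ) : tau (sigma z) = z := by
  set s := √(1 + ‖z‖ ^ 2) with hs
  have hs2 : s ^ 2 = 1 + ‖z‖ ^ 2 := Real.sq_sqrt (by positivity)
  have hs0 : 0 ≤ s := Real.sqrt_nonneg _
  have h2 : ‖sigma z‖ = (1 + s)⁻¹ * ‖z‖ := by
    unfold sigma
    rw [norm_mul, Complex.norm_real, Real.norm_eq_abs, abs_of_pos (by positivity)]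
  have h3 : 1 - ‖sigma z‖ ^ 2 = 2 / (1 + s) := by
    rw [h2, mul_pow, show ‖z‖ ^ 2 = s ^ 2 - 1 by rw [hs2]; ring]
    field_simp
    ring
  unfold tau
  rw [h3]
  unfold sigma
  rw [← mul_assoc, ← Complex.ofReal_mul]
  have : 2 / (2 / (1 + s)) * (1 + s)⁻¹ = 1 := by field_simp
  rw [← hs, this]
  simp

theorem continuous_sigma : Continuous sigma := by
  unfold sigma
  apply Continuous.mul _ continuous_id
  apply Complex.continuous_ofReal.comp
  apply Continuous.inv₀ (by fun_prop)
  intro z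
  have := Real.sqrt_nonneg (1 + ‖z‖ ^ 2)
  positivity

theorem locInj_sigma (z : ℂ) : LocInj sigma z :=
  ⟨1, one_pos, continuous_sigma.continuousOn, (Function.LeftInverse.injective tau_sigma).injOn⟩

theorem op_sigma (z : ℂ) : PreservesOrientationAt sigma z := by
  apply op_preconnected (U := univ) isPreconnected_univ (fun z _ => locInj_sigma z)
    (mem_univ 0) (mem_univ z)
  apply op_of_pos (R := 1) one_pos continuous_sigma.continuousOn
  intro z _
  refine ⟨_, ?_, rfl⟩
  have := Real.sqrt_nonneg (1 + ‖z‖ ^ 2)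
  positivity

theorem continuousOn_tau : ContinuousOn tau (Metric.ball 0 1) := by
  unfold tau
  apply ContinuousOn.mul _ continuousOn_id
  apply Complex.continuous_ofReal.comp_continuousOn
  apply ContinuousOn.div (by fun_prop) (by fun_prop)
  intro z hz
  rw [mem_ball_zero_iff] at hz
  nlinarith [norm_nonneg z]

theorem injOn_tau : InjOn tau (Metric.ball 0 1) := by
  intro x hx y hy h
  rw [mem_ball_zero_iff] at hx hy
  rw [← sigma_tau hx, h, sigma_tau hy]

theorem op_tau {w : ℂ} (hw : ‖w‖ < 1) : PreservesOrientationAt tau w := by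
  apply op_preconnected (U := Metric.ball 0 1) (convex_ball _ _).isPreconnected _
    (Metric.mem_ball_self one_pos) (mem_ball_zero_iff.mpr hw)
  · apply op_of_pos (R := 1) one_pos continuousOn_tau
    intro z hz
    refine ⟨_, ?_, rfl⟩
    rw [mem_ball_zero_iff] at hz
    have : 0 < 1 - ‖z‖ ^ 2 := by nlinarith [norm_nonneg z]
    positivity
  · intro z hz
    obtain ⟨R, hR, hsub⟩ := Metric.isOpen_iff.mp (Metric.isOpen_ball (x := (0 : ℂ)) (ε := 1)) z hz
    exact ⟨R, hR, continuousOn_tau.mono hsub, injOn_tau.mono hsub⟩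

theorem continuous_aff : Continuous aff := by
  have e : aff = fun z => Complex.equivRealProdCLM.symm ((z.re + z.im) / 2, (1 + 2 * z.im) / 2) := by
    ext z
    apply Complex.ext <;> simp [aff]
  rw [e]
  fun_prop

theorem aff_injective : Function.Injective aff := by
  intro x y h
  have h1 := congrArg Complex.re h
  have h2 := congrArg Complex.im h
  simp only [aff] at h1 h2
  apply Complex.ext <;> linarith

theorem locInj_aff (z : ℂ) : LocInj aff z :=
  ⟨1, one_pos, continuous_aff.continuousOn, aff_injective.injOn⟩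

theorem op_aff (z : ℂ) : PreservesOrientationAt aff z := by
  rw [op_iff]
  filter_upwards [self_mem_nhdsWithin] with r hr
  have hr' : (0 : ℝ) < r := hr
  have e : ∀ ξ : Circle, loop aff z r ξ =
      ⟨r * ((ξ : ℂ).re + (ξ : ℂ).im) / 2, r * (ξ : ℂ).im⟩ := by
    intro ξ
    unfold loop aff
    apply Complex.ext <;> simp <;> ring
  apply LH.line
  · unfold loop
    apply Continuous.sub _ continuous_const
    exact continuous_aff.comp (by fun_prop)
  · fun_prop
  · intro s hs ξ h0
    rw [e] at h0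
    have h1 := congrArg Complex.re h0
    have h2 := congrArg Complex.im h0
    have c1 : (1 - s : ℂ) = ((1 - s : ℝ) : ℂ) := by push_cast; ring
    rw [c1] at h1 h2
    rw [Complex.add_im, Complex.im_ofReal_mul, Complex.im_ofReal_mul, Complex.zero_im] at h2
    rw [Complex.add_re, Complex.re_ofReal_mul, Complex.re_ofReal_mul, Complex.zero_re] at h1
    simp only at h1 h2
    have h3 : ((1 - s) * r + s) * (ξ : ℂ).im = 0 := by linear_combination h2
    have hpos : 0 < (1 - s) * r + s := by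
      rcases eq_or_lt_of_le hs.1 with h | h
      · rw [← h]; simpa using hr'
      · have := mul_nonneg (by linarith [hs.2] : (0 : ℝ) ≤ 1 - s) hr'.le
        linarith
    have h4 : (ξ : ℂ).im = 0 := (mul_eq_zero.mp h3).resolve_left hpos.ne'
    rw [h4] at h1
    have h5 : ((1 - s) * r / 2 + s) * (ξ : ℂ).re = 0 := by linear_combination h1
    have hpos' : 0 < (1 - s) * r / 2 + s := by
      rcases eq_or_lt_of_le hs.1 with h | h
      · rw [← h]; simp; exact hr'
      · have := mul_nonneg (by linarith [hs.2] : (0 : ℝ) ≤ 1 - s) hr'.le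
        linarith
    have h6 : (ξ : ℂ).re = 0 := (mul_eq_zero.mp h5).resolve_left hpos'.ne'
    exact Circle.coe_ne_zero ξ (Complex.ext h6 h4)

/-- stereographic projection of a direction -/
theorem st_dir (x : V3) (hx : x ≠ 0) :
    st (dir x hx) = ⟨x 0 / (‖x‖ - x 2), x 1 / (‖x‖ - x 2)⟩ := by
  have hn : 0 < ‖x‖ := norm_pos_iff.mpr hx
  have e : ∀ i, ((dir x hx : S2) : V3) i = ‖x‖⁻¹ * x i := fun i => rfl
  unfold st
  rw [e, e, e]
  have h1 : 1 - ‖x‖⁻¹ * x 2 = ‖x‖⁻¹ * (‖x‖ - x 2) := by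
    field_simp
  rw [h1, mul_div_mul_left _ _ (inv_ne_zero hn.ne'), mul_div_mul_left _ _ (inv_ne_zero hn.ne')]

/-- the formula for `f` on a piece -/
theorem fh_piece {w : ℂ} (hw : ‖w‖ < 1) (h1 : 0 < (tau w).re + (tau w).im)
    (h2 : 1 < - 2 * (tau w).im) : fh w = sigma (aff (tau w)) := by
  have hp : 0 < 1 - ‖w‖ ^ 2 := by nlinarith [norm_nonneg w]
  set X := (tau w).re with hX
  set Y := (tau w).im with hY
  set l : ℝ := (1 - ‖w‖ ^ 2) / (‖w‖ ^ 2 + 1) with hl
  have hl0 : 0 < l := by positivity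
  have hXw : X = 2 / (1 - ‖w‖ ^ 2) * w.re := by
    rw [hX]; unfold tau; rw [Complex.re_ofReal_mul]
  have hYw : Y = 2 / (1 - ‖w‖ ^ 2) * w.im := by
    rw [hY]; unfold tau; rw [Complex.im_ofReal_mul]
  have hv : (unstereo w : V3) = l • (!₂[X, Y, -1] : V3) := by
    apply v3_ext
    · rw [unstereo_zero]; simp [hXw, hl]; field_simp
    · rw [unstereo_one]; simp [hYw, hl]; field_simp
    · rw [unstereo_two]; simp [hl]; field_simp; ring
  have hF : F (!₂[X, Y, -1] : V3) = !₂[X + Y, 1 + 2 * Y, -2] := by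
    have hH : T2 X Y = 2 * Y := by
      unfold T2
      rw [abs_of_pos h1, abs_of_pos (by linarith : 0 < X - Y)]; ring
    apply v3_ext
    · simp [T1]
      rw [abs_of_pos (by linarith : 0 < X), abs_of_neg (by linarith : Y < 0)]; ring
    · simp [hH, T1]
      rw [abs_of_neg (by linarith : Y < 0)]; ring
    · simp [hH]
      unfold T2
      rw [abs_of_neg (by linarith : -1 + 2 * Y < 0), abs_of_pos (by linarith : 0 < -1 - 2 * Y)]
      ring
  have hFv : F (unstereo w : V3) = l • (!₂[X + Y, 1 + 2 * Y, -2] : V3) := by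
    rw [hv, F_smul hl0.le, hF]
  have hst : fh w = st (dir (F (unstereo w : V3)) (F_ne (ne_zero_S2 _))) := rfl
  rw [hst, st_dir, hFv]
  set z' := aff (tau w) with hz'
  have hz'2 : ‖z'‖ ^ 2 = (X + Y) ^ 2 / 4 + (1 + 2 * Y) ^ 2 / 4 := by
    rw [sq_norm', hz']; simp only [aff]; ring
  set s := √(1 + ‖z'‖ ^ 2) with hs
  have hs2 : s ^ 2 = 1 + ‖z'‖ ^ 2 := Real.sq_sqrt (by positivity)
  have hs0 : 0 ≤ s := Real.sqrt_nonneg _
  have hnorm : ‖(!₂[X + Y, 1 + 2 * Y, -2] : V3)‖ = 2 * s := by
    rw [EuclideanSpace.norm_eq, Real.sqrt_eq_iff_mul_self_eq (by positivity) (by positivity)]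
    simp [Fin.sum_univ_three]
    rw [show 2 * s * (2 * s) = 4 * s ^ 2 by ring, hs2, hz'2]; ring
  rw [norm_smul, hnorm, Real.norm_eq_abs, abs_of_pos hl0]
  have hden : l * (2 * s) - (l • (!₂[X + Y, 1 + 2 * Y, -2] : V3)) 2 = l * (2 * (1 + s)) := by
    simp; ring
  rw [hden]
  apply Complex.ext
  · unfold sigma
    rw [Complex.re_ofReal_mul, ← hs, hz']
    simp [aff]
    field_simp
    rfl
  · unfold sigma
    rw [Complex.im_ofReal_mul, ← hs, hz']
    simp [aff]
    field_simp
    rfl

/-- a point in the piece -/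
noncomputable def w0 : ℂ := ⟨3 / 5, -3 / 10⟩

theorem norm_w0 : ‖w0‖ ^ 2 = 9 / 20 := by
  rw [sq_norm']; simp only [w0]; norm_num

theorem norm_w0_lt : ‖w0‖ < 1 := by
  nlinarith [norm_w0, norm_nonneg w0]

theorem tau_w0 : (tau w0).re = 24 / 11 ∧ (tau w0).im = -12 / 11 := by
  unfold tau
  rw [Complex.re_ofReal_mul, Complex.im_ofReal_mul, norm_w0]
  simp only [w0]
  norm_num

theorem op_fh_w0 : PreservesOrientationAt fh w0 := by
  have hct : ContinuousAt tau w0 :=
    continuousOn_tau.continuousAt (Metric.isOpen_ball.mem_nhds (mem_ball_zero_iff.mpr norm_w0_lt))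
  have h1 : PreservesOrientationAt (fun w => aff (tau w)) w0 :=
    (op_comp hct (op_tau norm_w0_lt) (locInj_aff _)).mp (op_aff _)
  have h2 : PreservesOrientationAt (fun w => sigma (aff (tau w))) w0 :=
    (op_comp (k := fun w => aff (tau w)) (continuous_aff.continuousAt.comp hct) h1
      (locInj_sigma _)).mp (op_sigma _)
  refine (op_congr ?_).mpr h2
  have e1 : ∀ᶠ w in 𝓝 w0, ‖w‖ < 1 :=
    continuous_norm.continuousAt.eventually_lt continuousAt_const norm_w0_lt
  have hre : ContinuousAt (fun w => (tau w).re + (tau w).im) w0 :=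
    (Complex.continuous_re.continuousAt.comp hct).add (Complex.continuous_im.continuousAt.comp hct)
  have him : ContinuousAt (fun w => -2 * (tau w).im) w0 :=
    continuousAt_const.mul (Complex.continuous_im.continuousAt.comp hct)
  have e2 : ∀ᶠ w in 𝓝 w0, 0 < (tau w).re + (tau w).im :=
    continuousAt_const.eventually_lt hre (by rw [tau_w0.1, tau_w0.2]; norm_num)
  have e3 : ∀ᶠ w in 𝓝 w0, 1 < -2 * (tau w).im :=
    continuousAt_const.eventually_lt him (by rw [tau_w0.2]; norm_num)
  filter_upwards [e1, e2, e3] with w a1 a2 a3 using fh_piece a1 a2 a3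

/-- the exceptional points of the coordinate plane -/
def bad : Set ℂ := {w | w = 0 ∨ w ^ 4 = 1 ∨ (f (unstereo w) : V3) 2 = 1}

theorem sphere_top {u v : S2} (hu : (u : V3) 2 = 1) (hv : (v : V3) 2 = 1) : u = v := by
  have h1 := sum_sq u
  have h2 := sum_sq v
  rw [hu] at h1
  rw [hv] at h2
  apply Subtype.ext
  apply v3_ext
  · have a : (u : V3) 0 = 0 := by nlinarith [sq_nonneg ((u : V3) 0), sq_nonneg ((u : V3) 1)]
    have b : (v : V3) 0 = 0 := by nlinarith [sq_nonneg ((v : V3) 0), sq_nonneg ((v : V3) 1)]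
    rw [a, b]
  · have a : (u : V3) 1 = 0 := by nlinarith [sq_nonneg ((u : V3) 0), sq_nonneg ((u : V3) 1)]
    have b : (v : V3) 1 = 0 := by nlinarith [sq_nonneg ((v : V3) 0), sq_nonneg ((v : V3) 1)]
    rw [a, b]
  · rw [hu, hv]

theorem finite_sq (a : ℂ) : {w : ℂ | w ^ 2 = a}.Finite := by
  by_cases h : ∃ b, b ^ 2 = a
  · obtain ⟨b, rfl⟩ := h
    apply (Set.toFinite {b, -b}).subset
    intro w hw
    rcases sq_eq_sq_iff_eq_or_eq_neg.mp hw with h | h
    · left; exact h
    · right; exact h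
  · push Not at h
    apply Set.finite_empty.subset
    intro w hw
    exact h w hw

theorem finite_bad : bad.Finite := by
  have h1 : {w : ℂ | w = 0}.Finite := Set.finite_singleton 0
  have h2 : {w : ℂ | w ^ 4 = 1}.Finite := by
    apply ((finite_sq 1).union (finite_sq (-1))).subset
    intro w hw
    have : (w ^ 2) ^ 2 = 1 := by
      have : w ^ 4 = 1 := hw
      rw [← this]; ring
    exact sq_eq_one_iff_of_side_cond this
  have h3 : {w : ℂ | (f (unstereo w) : V3) 2 = 1}.Finite := by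
    by_cases h : ∃ w₁, (f (unstereo w₁) : V3) 2 = 1
    · obtain ⟨w₁, hw₁⟩ := h
      apply ((finite_sq (w₁ ^ 2)).union (finite_sq ((w₁ ^ 2)⁻¹))).subset
      intro w hw
      have := f_unstereo_eq.mp (sphere_top hw₁ hw)
      rcases this with h | h
      · left; exact h
      · right
        exact eq_inv_of_mul_eq_one_right h
    · push Not at h
      apply Set.finite_empty.subset
      intro w hw
      exact h w hw
  apply (h1.union (h2.union h3)).subset
  rintro w (h | h | h)
  · left; exact h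
  · right; left; exact h
  · right; right; exact h

theorem locInj_fh {w : ℂ} (hw : w ∉ bad) : LocInj fh w := by
  have h0 : w ≠ 0 := fun h => hw (Or.inl h)
  have h1 : w ^ 4 ≠ 1 := fun h => hw (Or.inr (Or.inl h))
  have h2 : (f (unstereo w) : V3) 2 ≠ 1 := fun h => hw (Or.inr (Or.inr h))
  have hopen : IsOpen {w : ℂ | (f (unstereo w) : V3) 2 ≠ 1} := by
    have hc : Continuous fun w : ℂ => (f (unstereo w) : V3) 2 := by
      have h3 : Continuous fun w : ℂ => (f (unstereo w) : V3) :=
        continuous_subtype_val.comp (continuous_f.comp continuous_unstereo)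
      have h4 : Continuous fun x : V3 => x 2 := by fun_prop
      exact h4.comp h3
    exact isOpen_ne_fun hc continuous_const
  have e1 : ∀ᶠ p : ℂ × ℂ in 𝓝 (w, w), p.1 + p.2 ≠ 0 := by
    apply ContinuousAt.eventually_ne (by fun_prop)
    intro h; apply h0
    have : w + w = 0 := h
    have h' : 2 * w = 0 := by linear_combination this
    simpa using h'
  have e2 : ∀ᶠ p : ℂ × ℂ in 𝓝 (w, w), p.1 ^ 2 * p.2 ^ 2 ≠ 1 := by
    apply ContinuousAt.eventually_ne (by fun_prop)
    intro h; apply h1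
    have : w ^ 2 * w ^ 2 = 1 := h
    rw [← this]; ring
  rw [nhds_prod_eq] at e1 e2
  have e := e1.and e2
  rw [Filter.eventually_iff, Filter.mem_prod_same_iff] at e
  obtain ⟨V, hV, hts⟩ := e
  obtain ⟨R, hR, hsub⟩ := Metric.mem_nhds_iff.mp (Filter.inter_mem hV (hopen.mem_nhds h2))
  refine ⟨R, hR, ?_, ?_⟩
  · apply ContinuousOn.comp (t := {v : S2 | (v : V3) 2 ≠ 1}) continuousOn_st
      (continuous_f.comp continuous_unstereo).continuousOn
    intro z hz
    exact (hsub hz).2
  · intro x hx y hy hxy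
    have hx' := hsub hx
    have hy' := hsub hy
    have h3 : f (unstereo x) = f (unstereo y) := by
      rw [← unstereo_st hx'.2, ← unstereo_st hy'.2]
      exact congrArg unstereo hxy
    obtain ⟨a1, a2⟩ := hts (show (x, y) ∈ V ×ˢ V from ⟨hx'.1, hy'.1⟩)
    rcases f_unstereo_eq.mp h3 with h | h
    · rcases sq_eq_sq_iff_eq_or_eq_neg.mp h with h | h
      · exact h.symm
      · exfalso; apply a1
        simp [h]
    · exact absurd h a2

theorem w0_not_bad : w0 ∉ bad := by
  rintro (h | h | h)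
  · have := norm_w0
    rw [h] at this
    norm_num at this
  · have h1 := congrArg norm h
    rw [norm_pow, norm_one] at h1
    have h2 : ‖w0‖ ^ 4 = (‖w0‖ ^ 2) ^ 2 := by ring
    rw [h2, norm_w0] at h1
    norm_num at h1
  · -- the third coordinate of the image is negative
    have hF : 0 < T2 ((unstereo w0 : V3) 2) (T2 ((unstereo w0 : V3) 0) ((unstereo w0 : V3) 1)) := by
      rw [unstereo_zero, unstereo_one, unstereo_two, norm_w0]
      simp only [w0, T2]
      norm_num
    have h2 : (f (unstereo w0) : V3) 2 = ‖F (unstereo w0 : V3)‖⁻¹ * F (unstereo w0 : V3) 2 := rfl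
    rw [h2, F_two] at h
    have h3 := inv_pos.mpr (norm_F_pos (unstereo w0))
    nlinarith [mul_pos h3 hF]

/-- `f` preserves the orientation at all the regular points -/
theorem op_fh {w : ℂ} (hw : w ∉ bad) : PreservesOrientationAt fh w := by
  have hpre : IsPreconnected badᶜ :=
    (finite_bad.countable.isPathConnected_compl_of_one_lt_rank (by
      rw [Complex.rank_real_complex]; norm_num)).isConnected.isPreconnected
  exact op_preconnected hpre (fun z hz => locInj_fh hz) w0_not_bad hw op_fh_w0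

end Pool.Agent.Run7.h327.Th
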