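import Mathlib
import Pool.Agent.Run7.h327.Th.Base

set_option autoImplicit false

open Set Filter Topology

namespace Pool.Agent.Run7.h327.Th

/-- a chart induced on the quotient -/
theorem exists_quotient_chart {X Y : Type*} [TopologicalSpace X] [TopologicalSpace Y] [Nonempty X]
    {g : X → Y} (hg : Continuous g) (hgo : IsOpenMap g) {U : Set X} (hU : IsOpen U) {k : X → ℂ}
    (hk : ContinuousOn k U) (hko : ∀ V ⊆ U, IsOpen V → IsOpen (k '' V))
    (hfib : ∀ q ∈ U, ∀ q' ∈ U, g q = g q' ↔ k q = k q') :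
    ∃ ψ : OpenPartialHomeomorph Y ℂ, ψ.source = g '' U ∧ ∀ q ∈ U, ψ (g q) = k q := by
  classical
  set a : Y → X := Function.invFunOn g U with ha
  set b : ℂ → X := Function.invFunOn k U with hb
  have ha1 : ∀ q ∈ U, a (g q) ∈ U := fun q hq => Function.invFunOn_mem ⟨q, hq, rfl⟩
  have ha2 : ∀ q ∈ U, g (a (g q)) = g q := fun q hq => Function.invFunOn_eq ⟨q, hq, rfl⟩
  have hb1 : ∀ q ∈ U, b (k q) ∈ U := fun q hq => Function.invFunOn_mem ⟨q, hq, rfl⟩
  have hb2 : ∀ q ∈ U, k (b (k q)) = k q := fun q hq => Function.invFunOn_eq ⟨q, hq, rfl⟩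
  have hka : ∀ q ∈ U, k (a (g q)) = k q := fun q hq =>
    (hfib _ (ha1 q hq) _ hq).mp (ha2 q hq)
  have hgb : ∀ q ∈ U, g (b (k q)) = g q := fun q hq =>
    (hfib _ (hb1 q hq) _ hq).mpr (hb2 q hq)
  have hopen1 : IsOpen (g '' U) := hgo U hU
  have hopen2 : IsOpen (k '' U) := hko U subset_rfl hU
  refine ⟨{ toFun := fun y => k (a y)
            invFun := fun z => g (b z)
            source := g '' U
            target := k '' U
            map_source' := ?_
            map_target' := ?_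
            left_inv' := ?_
            right_inv' := ?_
            open_source := hopen1
            open_target := hopen2
            continuousOn_toFun := ?_
            continuousOn_invFun := ?_ }, rfl, ?_⟩
  · rintro _ ⟨q, hq, rfl⟩
    exact ⟨q, hq, (hka q hq).symm⟩
  · rintro _ ⟨q, hq, rfl⟩
    exact ⟨q, hq, (hgb q hq).symm⟩
  · rintro _ ⟨q, hq, rfl⟩
    rw [hka q hq, hgb q hq]
  · rintro _ ⟨q, hq, rfl⟩
    rw [hgb q hq, hka q hq]
  · rw [continuousOn_open_iff hopen1]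
    intro t ht
    have : g '' U ∩ (fun y => k (a y)) ⁻¹' t = g '' (U ∩ k ⁻¹' t) := by
      ext y
      constructor
      · rintro ⟨⟨q, hq, rfl⟩, h2⟩
        refine ⟨q, ⟨hq, ?_⟩, rfl⟩
        have h3 : k (a (g q)) ∈ t := h2
        rwa [hka q hq] at h3
      · rintro ⟨q, ⟨hq, h2⟩, rfl⟩
        refine ⟨⟨q, hq, rfl⟩, ?_⟩
        change k (a (g q)) ∈ t
        rw [hka q hq]; exact h2
    rw [this]
    exact hgo _ (hk.isOpen_inter_preimage hU ht)
  · rw [continuousOn_open_iff hopen2]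
    intro t ht
    have : k '' U ∩ (fun z => g (b z)) ⁻¹' t = k '' (U ∩ g ⁻¹' t) := by
      ext y
      constructor
      · rintro ⟨⟨q, hq, rfl⟩, h2⟩
        refine ⟨q, ⟨hq, ?_⟩, rfl⟩
        have h3 : g (b (k q)) ∈ t := h2
        rwa [hgb q hq] at h3
      · rintro ⟨q, ⟨hq, h2⟩, rfl⟩
        refine ⟨⟨q, hq, rfl⟩, ?_⟩
        change g (b (k q)) ∈ t
        rw [hgb q hq]; exact h2
    rw [this]
    exact hko _ inter_subset_left (hU.inter (ht.preimage hg))
  · intro q hq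
    exact hka q hq

theorem isOpenMap_pow' {d : ℕ} (hd : 1 ≤ d) : IsOpenMap fun z : ℂ => z ^ d := by
  have h : AnalyticOnNhd ℂ (fun z : ℂ => z ^ d) univ := fun z _ => by fun_prop
  rcases h.is_constant_or_isOpenMap with ⟨c, hc⟩ | h
  · exfalso
    have h0 : (0 : ℂ) ^ d = c := hc 0
    have h1 : (1 : ℂ) ^ d = c := hc 1
    rw [zero_pow (by omega)] at h0
    rw [one_pow, ← h0] at h1
    exact one_ne_zero h1
  · exact h

/-- the charts of the local models -/
theorem local_model {w₀ : ℂ} {d : ℕ} (hd : 1 ≤ d) {U₀ : Set ℂ} (hU₀ : IsOpen U₀) (hw₀ : w₀ ∈ U₀)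
    {φ : ℂ → ℂ} (hφ : DifferentiableOn ℂ φ U₀) (h0 : φ w₀ = 0) (h1 : deriv φ w₀ ≠ 0)
    (hfib : ∀ w ∈ U₀, ∀ w' ∈ U₀, f (unstereo w) = f (unstereo w') ↔ φ w ^ d = φ w' ^ d) :
    ∃ Φ Ψ : OpenPartialHomeomorph S2 ℂ, IsOriented Φ ∧ IsOriented Ψ ∧
      unstereo w₀ ∈ Φ.source ∧ Φ (unstereo w₀) = 0 ∧ f (unstereo w₀) ∈ Ψ.source ∧
      Ψ (f (unstereo w₀)) = 0 ∧ (∀ q ∈ Φ.source, f q ∈ Ψ.source ∧ Ψ (f q) = Φ q ^ d) ∧
      (∀ q ∈ Φ.source, (q : V3) 2 ≠ 1 ∧ st q ∈ U₀ ∧ Φ q = φ (st q)) := by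
  have hana : AnalyticOnNhd ℂ φ U₀ := hφ.analyticOnNhd hU₀
  have hsd : HasStrictDerivAt φ (deriv φ w₀) w₀ := (hana w₀ hw₀).hasStrictDerivAt
  set e := (hsd.hasStrictFDerivAt_equiv h1).toOpenPartialHomeomorph φ with he
  have hecoe : ∀ z, e z = φ z := fun z => rfl
  have hemem : w₀ ∈ e.source := HasStrictFDerivAt.mem_toOpenPartialHomeomorph_source _
  have hopen1 : IsOpen {w | w ∈ U₀ ∧ deriv φ w ≠ 0} := by
    have hc : ContinuousOn (deriv φ) U₀ := hana.deriv.continuousOn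
    have := hc.isOpen_inter_preimage hU₀ (isOpen_ne (x := (0 : ℂ)))
    exact this
  set e' := e.restrOpen {w | w ∈ U₀ ∧ deriv φ w ≠ 0} hopen1 with he'
  have he'coe : ∀ z, e' z = φ z := fun z => rfl
  have he's : e'.source = e.source ∩ {w | w ∈ U₀ ∧ deriv φ w ≠ 0} :=
    OpenPartialHomeomorph.restrOpen_source _ _ _
  set Φ := stH.trans e' with hΦ
  have hΦcoe : ∀ q, Φ q = φ (st q) := fun q => rfl
  have hΦs : ∀ q, q ∈ Φ.source ↔ (q : V3) 2 ≠ 1 ∧ st q ∈ e'.source := by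
    intro q
    rw [hΦ, OpenPartialHomeomorph.trans_source]
    rfl
  have hmem0 : unstereo w₀ ∈ Φ.source := by
    rw [hΦs]
    refine ⟨(unstereo_two_lt w₀).ne, ?_⟩
    rw [st_unstereo, he's]
    exact ⟨hemem, hw₀, h1⟩
  have hst : ∀ q ∈ Φ.source, unstereo (st q) = q := fun q hq => unstereo_st ((hΦs q).mp hq).1
  -- the target chart
  have : Nonempty S2 := ⟨unstereo w₀⟩
  have hΦU : ∀ q ∈ Φ.source, st q ∈ U₀ := by
    intro q hq
    have := ((hΦs q).mp hq).2
    rw [he's] at this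
    exact this.2.1
  obtain ⟨Ψ, hΨs, hΨ⟩ := exists_quotient_chart (g := f) (U := Φ.source) (k := fun q => Φ q ^ d)
    continuous_f isOpenMap_f Φ.open_source (Φ.continuousOn.pow d)
    (by
      intro V hV hVo
      have : (fun q => Φ q ^ d) '' V = (fun z : ℂ => z ^ d) '' (Φ '' V) := by
        rw [image_image]
      rw [this]
      exact isOpenMap_pow' hd _ (Φ.isOpen_image_of_subset_source hVo hV))
    (by
      intro q hq q' hq'
      rw [hΦcoe, hΦcoe, ← hfib _ (hΦU q hq) _ (hΦU q' hq'), hst q hq, hst q' hq'])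
  have hderiv : ∀ w, unstereo w ∈ Φ.source → w ∈ U₀ ∧ deriv φ w ≠ 0 := by
    intro w hw
    have := ((hΦs _).mp hw).2
    rw [st_unstereo, he's] at this
    exact this.2
  have hcontφ : ∀ w ∈ U₀, ∀ᶠ x in 𝓝 w, ContinuousAt φ x := by
    intro w hw
    filter_upwards [hU₀.mem_nhds hw] with x hx using
      (hφ.differentiableAt (hU₀.mem_nhds hx)).continuousAt
  have hdφ : ∀ w ∈ U₀, HasDerivAt φ (deriv φ w) w := fun w hw =>
    (hφ.differentiableAt (hU₀.mem_nhds hw)).hasDerivAt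
  refine ⟨Φ, Ψ, ?_, ?_, hmem0, ?_, ?_, ?_, ?_, ?_⟩
  · -- orientation of Φ
    intro w hw
    obtain ⟨hwU, hwd⟩ := hderiv w hw
    have e1 : (fun z => Φ (unstereo z)) = φ := by
      ext z
      rw [hΦcoe, st_unstereo]
    rw [e1]
    exact op_of_hasDerivAt (hdφ w hwU) hwd (hcontφ w hwU)
  · -- orientation of Ψ
    intro w₁ hw₁
    -- local injectivity
    have hO : IsOpen (unstereo ⁻¹' Ψ.source) := Ψ.open_source.preimage continuous_unstereo
    have hloc : ∀ w, unstereo w ∈ Ψ.source → LocInj (fun z => Ψ (unstereo z)) w := by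
      intro w hw
      obtain ⟨R, hR, hsub⟩ := Metric.isOpen_iff.mp hO w hw
      refine ⟨R, hR, ?_, ?_⟩
      · exact Ψ.continuousOn.comp continuous_unstereo.continuousOn hsub
      · intro x hx y hy hxy
        exact unstereo_injective (Ψ.injOn (hsub hx) (hsub hy) hxy)
    obtain ⟨O, hOsub, hOo, hOw⟩ := eventually_nhds_iff.mp
      ((op_eventually (hloc w₁ hw₁)).and (hO.mem_nhds hw₁))
    -- a good point
    have himg : IsOpen (unstereo '' O) := by
      have := stH.symm.isOpen_image_of_subset_source hOo (fun x _ => mem_univ x)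
      exact this
    set A : Set ℂ := {u | unstereo u ∈ Φ.source ∧ f (unstereo u) ∈ unstereo '' O} with hA
    have hAo : IsOpen A := (Φ.open_source.preimage continuous_unstereo).inter
      (himg.preimage (continuous_f.comp continuous_unstereo))
    have hAne : A.Nonempty := by
      rw [hΨs] at hw₁
      obtain ⟨q, hq, hq'⟩ := hw₁
      refine ⟨st q, ?_, ?_⟩
      · rw [hst q hq]; exact hq
      · rw [hst q hq, hq']; exact ⟨w₁, hOw, rfl⟩
    have hdense : Dense (bad ∪ {w₀})ᶜ := by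
      apply (finite_bad.countable.union (countable_singleton w₀)).dense_compl ℝ
    obtain ⟨u, ⟨huA1, ⟨z, hz, hzu⟩⟩, hu⟩ := hdense.inter_open_nonempty A hAo hAne
    have hub : u ∉ bad := fun h => hu (Or.inl h)
    have huw : u ≠ w₀ := fun h => hu (Or.inr h)
    obtain ⟨huU, hud⟩ := hderiv u huA1
    have hfz : fh u = z := by
      unfold fh
      rw [← hzu, st_unstereo]
    have hne : (f (unstereo u) : V3) 2 ≠ 1 := fun h => hub (Or.inr (Or.inr h))
    have hcont : ContinuousAt fh u := by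
      obtain ⟨R, hR, h, _⟩ := locInj_fh hub
      exact h.continuousAt (Metric.ball_mem_nhds u hR)
    have hzΨ : unstereo z ∈ Ψ.source := (hOsub z hz).2
    have key : PreservesOrientationAt (fun z => Ψ (unstereo z)) (fh u) := by
      rw [op_comp hcont (op_fh hub) (by rw [hfz]; exact hloc z hzΨ)]
      have hev : (fun z => Ψ (unstereo (fh z))) =ᶠ[𝓝 u] fun z => φ z ^ d := by
        have hopenS : ∀ᶠ x in 𝓝 u, unstereo x ∈ Φ.source :=
          (Φ.open_source.preimage continuous_unstereo).mem_nhds huA1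
        have hopenN : ∀ᶠ x in 𝓝 u, (f (unstereo x) : V3) 2 ≠ 1 := by
          have h3 : Continuous fun w : ℂ => (f (unstereo w) : V3) :=
            continuous_subtype_val.comp (continuous_f.comp continuous_unstereo)
          have h4 : Continuous fun x : V3 => x 2 := by fun_prop
          exact (h4.comp h3).continuousAt.eventually_ne hne
        filter_upwards [hopenS, hopenN] with x hx1 hx2
        unfold fh
        rw [unstereo_st hx2, hΨ _ hx1, hΦcoe, st_unstereo]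
      rw [op_congr hev]
      have hφu : φ u ≠ 0 := by
        intro h
        apply huw
        have h2 := ((hΦs _).mp huA1).2
        have h3 := ((hΦs _).mp hmem0).2
        rw [st_unstereo] at h2 h3
        apply e'.injOn h2 h3
        rw [he'coe, he'coe, h, h0]
      have hd' : HasDerivAt (fun z => φ z ^ d) ((d : ℂ) * φ u ^ (d - 1) * deriv φ u) u :=
        (hdφ u huU).pow d
      refine op_of_hasDerivAt hd' ?_ ?_
      · refine mul_ne_zero (mul_ne_zero ?_ (pow_ne_zero _ hφu)) hud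
        exact_mod_cast (by omega : d ≠ 0)
      · filter_upwards [hcontφ u huU] with x hx using hx.pow d
    have hz1 := (hOsub z hz).1
    rw [hfz] at key
    exact hz1.mpr key
  · rw [hΦcoe, st_unstereo, h0]
  · rw [hΨs]; exact ⟨_, hmem0, rfl⟩
  · rw [hΨ _ hmem0, hΦcoe, st_unstereo, h0, zero_pow (by omega)]
  · intro q hq
    refine ⟨?_, hΨ q hq⟩
    rw [hΨs]; exact ⟨q, hq, rfl⟩
  · intro q hq
    exact ⟨((hΦs q).mp hq).1, hΦU q hq, rfl⟩

theorem hasLocalDegree_unstereo {w₀ : ℂ} {d : ℕ} (hd : 1 ≤ d) {U₀ : Set ℂ} (hU₀ : IsOpen U₀)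
    (hw₀ : w₀ ∈ U₀) {φ : ℂ → ℂ} (hφ : DifferentiableOn ℂ φ U₀) (h0 : φ w₀ = 0)
    (h1 : deriv φ w₀ ≠ 0)
    (hfib : ∀ w ∈ U₀, ∀ w' ∈ U₀, f (unstereo w) = f (unstereo w') ↔ φ w ^ d = φ w' ^ d) :
    HasLocalDegree f (unstereo w₀) d := by
  obtain ⟨Φ, Ψ, a1, a2, a3, a4, a5, a6, a7, _⟩ := local_model hd hU₀ hw₀ hφ h0 h1 hfib
  exact ⟨hd, Φ, Ψ, a1, a2, a3, a4, a5, a6, a7⟩

/-- the south pole -/
theorem model_zero : ∃ Φ Ψ : OpenPartialHomeomorph S2 ℂ, IsOriented Φ ∧ IsOriented Ψ ∧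
      unstereo 0 ∈ Φ.source ∧ Φ (unstereo 0) = 0 ∧ f (unstereo 0) ∈ Ψ.source ∧
      Ψ (f (unstereo 0)) = 0 ∧ (∀ q ∈ Φ.source, f q ∈ Ψ.source ∧ Ψ (f q) = Φ q ^ 2) ∧
      (∀ q ∈ Φ.source, (q : V3) 2 ≠ 1 ∧ st q ∈ Metric.ball (0 : ℂ) 1 ∧ Φ q = st q) := by
  refine local_model (φ := fun w => w) (by norm_num) Metric.isOpen_ball
    (Metric.mem_ball_self one_pos) (by fun_prop) rfl (by simp) ?_
  intro w hw w' hw'
  rw [f_unstereo_eq]
  rw [mem_ball_zero_iff] at hw hw'
  constructor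
  · rintro (h | h)
    · exact h.symm
    · exfalso
      have h2 := congrArg norm h
      rw [norm_mul, norm_pow, norm_pow, norm_one] at h2
      nlinarith [norm_nonneg w, norm_nonneg w', mul_lt_mul'' hw hw' (norm_nonneg w) (norm_nonneg w'),
        mul_nonneg (norm_nonneg w) (norm_nonneg w')]
  · intro h
    left; exact h.symm

theorem fib_iff {w w' : ℂ} (hw : w ≠ 0) (hw' : w' ≠ 0) :
    (w' ^ 2 = w ^ 2 ∨ w ^ 2 * w' ^ 2 = 1) ↔ w ^ 2 + (w ^ 2)⁻¹ = w' ^ 2 + (w' ^ 2)⁻¹ := by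
  have h1 : w ^ 2 ≠ 0 := pow_ne_zero 2 hw
  have h2 : w' ^ 2 ≠ 0 := pow_ne_zero 2 hw'
  constructor
  · rintro (h | h)
    · rw [h]
    · rw [inv_eq_of_mul_eq_one_right h, inv_eq_of_mul_eq_one_left h]; ring
  · intro h
    have h3 : (w' ^ 2 - w ^ 2) * (w ^ 2 * w' ^ 2 - 1) = 0 := by
      field_simp at h
      linear_combination -h
    rcases mul_eq_zero.mp h3 with h4 | h4
    · left; exact sub_eq_zero.mp h4
    · right; exact sub_eq_zero.mp h4

theorem localDegree_one {w₀ : ℂ} (h1 : w₀ ^ 2 = 1) : HasLocalDegree f (unstereo w₀) 2 := by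
  have hU : IsOpen {w : ℂ | w ≠ 0} := isOpen_ne
  have hw₀ : w₀ ≠ 0 := by rintro rfl; norm_num at h1
  refine hasLocalDegree_unstereo (by norm_num) hU hw₀ (φ := fun w => w - w⁻¹) ?_ ?_ ?_ ?_
  · intro w hw
    exact (differentiableAt_id.sub (differentiableAt_inv hw)).differentiableWithinAt
  · have : w₀⁻¹ = w₀ := inv_eq_of_mul_eq_one_right (by rw [← sq]; exact h1)
    simp [this]
  · have : HasDerivAt (fun w : ℂ => w - w⁻¹) (1 - -(w₀ ^ 2)⁻¹) w₀ :=
      (hasDerivAt_id w₀).sub (hasDerivAt_inv hw₀)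
    rw [this.deriv, h1]
    norm_num
  · intro w hw w' hw'
    rw [f_unstereo_eq, fib_iff hw hw']
    have a : (w : ℂ) ≠ 0 := hw
    have b : (w' : ℂ) ≠ 0 := hw'
    have e : ∀ x : ℂ, x ≠ 0 → (x - x⁻¹) ^ 2 = (x ^ 2 + (x ^ 2)⁻¹) - 2 := by
      intro x hx
      field_simp
      ring
    rw [e w a, e w' b]
    constructor
    · intro h; rw [h]
    · intro h; linear_combination h

theorem localDegree_neg_one {w₀ : ℂ} (h2 : w₀ ^ 2 = -1) : HasLocalDegree f (unstereo w₀) 2 := by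
  have hU : IsOpen {w : ℂ | w ≠ 0} := isOpen_ne
  have hw₀ : w₀ ≠ 0 := by rintro rfl; norm_num at h2
  refine hasLocalDegree_unstereo (by norm_num) hU hw₀ (φ := fun w => w + w⁻¹) ?_ ?_ ?_ ?_
  · intro w hw
    exact (differentiableAt_id.add (differentiableAt_inv hw)).differentiableWithinAt
  · have : w₀⁻¹ = -w₀ := inv_eq_of_mul_eq_one_right (by linear_combination -h2)
    simp [this]
  · have : HasDerivAt (fun w : ℂ => w + w⁻¹) (1 + -(w₀ ^ 2)⁻¹) w₀ :=
      (hasDerivAt_id w₀).add (hasDerivAt_inv hw₀)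
    rw [this.deriv, h2]
    norm_num
  · intro w hw w' hw'
    rw [f_unstereo_eq, fib_iff hw hw']
    have a : (w : ℂ) ≠ 0 := hw
    have b : (w' : ℂ) ≠ 0 := hw'
    have e : ∀ x : ℂ, x ≠ 0 → (x + x⁻¹) ^ 2 = (x ^ 2 + (x ^ 2)⁻¹) + 2 := by
      intro x hx
      field_simp
      ring
    rw [e w a, e w' b]
    constructor
    · intro h; rw [h]
    · intro h; linear_combination h

theorem localDegree_nonzero {w₀ : ℂ} (hw₀ : w₀ ≠ 0) : ∃ d, HasLocalDegree f (unstereo w₀) d := by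
  have hU : IsOpen {w : ℂ | w ≠ 0} := isOpen_ne
  by_cases h1 : w₀ ^ 2 = 1
  · exact ⟨2, localDegree_one h1⟩
  by_cases h2 : w₀ ^ 2 = -1
  · exact ⟨2, localDegree_neg_one h2⟩
  · refine ⟨1, hasLocalDegree_unstereo le_rfl hU hw₀
      (φ := fun w => (w ^ 2 + (w ^ 2)⁻¹) - (w₀ ^ 2 + (w₀ ^ 2)⁻¹)) ?_ ?_ ?_ ?_⟩
    · intro w hw
      have hw2 : w ^ 2 ≠ 0 := pow_ne_zero 2 hw
      exact (((differentiableAt_id.pow 2).add ((differentiableAt_id.pow 2).inv hw2)).sub
        (differentiableAt_const _)).differentiableWithinAt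
    · simp
    · have hw2 : w₀ ^ 2 ≠ 0 := pow_ne_zero 2 hw₀
      have hd2 : HasDerivAt (fun w : ℂ => w ^ 2) (2 * w₀) w₀ := by
        simpa using hasDerivAt_pow 2 w₀
      have : HasDerivAt (fun w : ℂ => (w ^ 2 + (w ^ 2)⁻¹) - (w₀ ^ 2 + (w₀ ^ 2)⁻¹))
          (2 * w₀ + -(2 * w₀) / (w₀ ^ 2) ^ 2) w₀ :=
        (hd2.add (hd2.inv hw2)).sub_const _
      rw [this.deriv]
      intro h
      have h3 : (w₀ ^ 2 - 1) * (w₀ ^ 2 + 1) = 0 := by
        field_simp at h
        linear_combination h / 2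
      rcases mul_eq_zero.mp h3 with h4 | h4
      · exact h1 (by linear_combination h4)
      · exact h2 (by linear_combination h4)
    · intro w hw w' hw'
      rw [f_unstereo_eq, fib_iff hw hw', pow_one, pow_one]
      constructor
      · intro h; rw [h]
      · intro h; linear_combination h

/-- the north pole -/
theorem localDegree_north {p : S2} (hp : (p : V3) 2 = 1) : HasLocalDegree f p 2 := by
  obtain ⟨Φ, Ψ, a1, a2, a3, a4, a5, a6, a7, a8⟩ := model_zero
  have hpe : s1 p = unstereo 0 := by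
    have h := sum_sq p
    rw [hp] at h
    apply Subtype.ext
    rw [s1_coe]
    apply v3_ext
    · have : (p : V3) 0 = 0 := by nlinarith [sq_nonneg ((p : V3) 0), sq_nonneg ((p : V3) 1)]
      simp [g1, this]
    · have : (p : V3) 1 = 0 := by nlinarith [sq_nonneg ((p : V3) 0), sq_nonneg ((p : V3) 1)]
      simp [g1, this]
    · simp [g1, hp]
  have hfp : f p = f (unstereo 0) := by rw [← hpe, f_s1]
  refine ⟨by norm_num, s1.toOpenPartialHomeomorph.trans Φ, Ψ, ?_, a2, ?_, ?_, ?_, ?_, ?_⟩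
  · intro w hw
    have hw' : s1 (unstereo w) ∈ Φ.source := by
      rw [OpenPartialHomeomorph.trans_source] at hw
      exact hw.2
    have hw0 : w ≠ 0 := by
      rintro rfl
      apply (a8 _ hw').1
      rw [s1_coe]
      simp [g1]
    have hev : (fun z => (s1.toOpenPartialHomeomorph.trans Φ) (unstereo z)) =ᶠ[𝓝 w]
        fun z => z⁻¹ := by
      have h1 : ∀ᶠ z in 𝓝 w, s1 (unstereo z) ∈ Φ.source :=
        (Φ.open_source.preimage (s1.continuous.comp continuous_unstereo)).mem_nhds hw'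
      filter_upwards [h1, isOpen_ne.mem_nhds hw0] with z hz1 hz2
      change Φ (s1 (unstereo z)) = z⁻¹
      rw [(a8 _ hz1).2.2, ← unstereo_inv hz2, st_unstereo]
    rw [op_congr hev]
    refine op_of_hasDerivAt (hasDerivAt_inv hw0) ?_ ?_
    · exact neg_ne_zero.mpr (inv_ne_zero (pow_ne_zero 2 hw0))
    · filter_upwards [isOpen_ne.mem_nhds hw0] with x hx using continuousAt_inv₀ hx
  · rw [OpenPartialHomeomorph.trans_source]
    exact ⟨mem_univ _, by change s1 p ∈ Φ.source; rw [hpe]; exact a3⟩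
  · change Φ (s1 p) = 0
    rw [hpe]; exact a4
  · rw [hfp]; exact a5
  · rw [hfp]; exact a6
  · intro q hq
    rw [OpenPartialHomeomorph.trans_source] at hq
    obtain ⟨b1, b2⟩ := a7 _ hq.2
    have : f ((s1.toOpenPartialHomeomorph) q) = f q := f_s1 q
    rw [this] at b1 b2
    exact ⟨b1, b2⟩

theorem isBranchedCovering_f : IsBranchedCovering f := by
  refine ⟨continuous_f, ?_⟩
  intro p
  by_cases hp : (p : V3) 2 = 1
  · exact ⟨2, localDegree_north hp⟩
  · rw [← unstereo_st hp]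
    by_cases h : st p = 0
    · rw [h]
      obtain ⟨Φ, Ψ, a1, a2, a3, a4, a5, a6, a7, _⟩ := model_zero
      exact ⟨2, by norm_num, Φ, Ψ, a1, a2, a3, a4, a5, a6, a7⟩
    · exact localDegree_nonzero h

end Pool.Agent.Run7.h327.Th
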