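import Mathlib
import Pool.Agent.Run7.h327.Th.Local

set_option autoImplicit false

open Set Filter Topology

namespace Pool.Agent.Run7.h327.Th

/-- the coordinate `w` gives homeomorphic neighbourhoods -/
theorem unstereo_image_nhds {w : ℂ} {V : Set ℂ} (hV : V ∈ 𝓝 w) : unstereo '' V ∈ 𝓝 (unstereo w) := by
  obtain ⟨O, hO, hOo, hw⟩ := mem_nhds_iff.mp hV
  have himg : IsOpen (unstereo '' O) :=
    stH.symm.isOpen_image_of_subset_source hOo (fun x _ => mem_univ x)
  exact Filter.mem_of_superset (himg.mem_nhds ⟨w, hw, rfl⟩) (image_mono hO)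

/-- `f` is locally injective away from the six points -/
theorem f_locInj_unstereo {w : ℂ} (h0 : w ≠ 0) (h1 : w ^ 4 ≠ 1) :
    ∃ V ∈ 𝓝 (unstereo w), InjOn f V := by
  have e1 : ∀ᶠ p : ℂ × ℂ in 𝓝 (w, w), p.1 + p.2 ≠ 0 := by
    apply ContinuousAt.eventually_ne (by fun_prop)
    intro h; apply h0
    have : w + w = 0 := h
    have h' : 2 * w = 0 := by linear_combination this
    simpa using h'
  have e2 : ∀ᶠ p : ℂ × ℂ in 𝓝 (w, w), p.1 ^ 2 * p.2 ^ 2 ≠ 1 := by
    apply ContinuousAt.eventually_ne (by fun_prop)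
    intro h; apply h1
    have : w ^ 2 * w ^ 2 = 1 := h
    rw [← this]; ring
  rw [nhds_prod_eq] at e1 e2
  have e := e1.and e2
  rw [Filter.eventually_iff, Filter.mem_prod_same_iff] at e
  obtain ⟨V, hV, hts⟩ := e
  refine ⟨unstereo '' V, unstereo_image_nhds hV, ?_⟩
  rintro _ ⟨x, hx, rfl⟩ _ ⟨y, hy, rfl⟩ hxy
  obtain ⟨a1, a2⟩ := hts (show (x, y) ∈ V ×ˢ V from ⟨hx, hy⟩)
  rcases f_unstereo_eq.mp hxy with h | h
  · rcases sq_eq_sq_iff_eq_or_eq_neg.mp h with h | h
    · rw [h]
    · exfalso; apply a1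
      simp [h]
  · exact absurd h a2

/-- the six special points -/
def Six : Set S2 := {v | ((v : V3) 0 = 0 ∧ (v : V3) 1 = 0) ∨ ((v : V3) 0 = 0 ∧ (v : V3) 2 = 0) ∨
  ((v : V3) 1 = 0 ∧ (v : V3) 2 = 0)}

theorem f_locInj {p : S2} (hp : p ∉ Six) : ∃ V ∈ 𝓝 p, InjOn f V := by
  have h2 : (p : V3) 2 ≠ 1 := by
    intro h
    apply hp
    have := sum_sq p
    rw [h] at this
    left
    constructor <;> nlinarith [sq_nonneg ((p : V3) 0), sq_nonneg ((p : V3) 1)]
  rw [← unstereo_st h2] at hp ⊢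
  set w := st p
  apply f_locInj_unstereo
  · intro h
    apply hp
    left
    rw [h]
    simp
  · intro h
    apply hp
    have h3 : (w ^ 2) ^ 2 = 1 := by rw [← h]; ring
    have hn : ‖w‖ = 1 := by
      have := congrArg norm h
      rw [norm_pow, norm_one] at this
      exact (pow_eq_one_iff_of_nonneg (norm_nonneg w) (by norm_num)).mp this
    right
    have hw2 : (unstereo w : V3) 2 = 0 := by rw [unstereo_two, hn]; norm_num
    rcases sq_eq_one_iff_of_side_cond h3 with h4 | h4
    · rcases sq_eq_one_iff_of_side_cond h4 with h5 | h5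
      · right; refine ⟨?_, hw2⟩; rw [unstereo_one, h5]; simp
      · right; refine ⟨?_, hw2⟩; rw [unstereo_one, h5]; simp
    · have h5 : w ^ 2 = Complex.I ^ 2 := by rw [h4, Complex.I_sq]
      rcases sq_eq_sq_iff_eq_or_eq_neg.mp h5 with h5 | h5
      · left; refine ⟨?_, hw2⟩; rw [unstereo_zero, h5]; simp
      · left; refine ⟨?_, hw2⟩; rw [unstereo_zero, h5]; simp

/-- at a critical point the map is not locally injective -/
theorem not_locInj_of_localDegree {g : S2 → S2} {p : S2} {d : ℕ} (hd : 2 ≤ d)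
    (h : HasLocalDegree g p d) : ¬ ∃ V ∈ 𝓝 p, InjOn g V := by
  rintro ⟨V, hV, hinj⟩
  obtain ⟨_, φ, ψ, _, _, hp, hp0, _, _, hmod⟩ := h
  set ζ : ℂ := Complex.exp (2 * Real.pi * Complex.I / d) with hζ
  have hprim : IsPrimitiveRoot ζ d := Complex.isPrimitiveRoot_exp d (by omega)
  have hζ1 : ζ ≠ 1 := hprim.ne_one (by omega)
  have htgt : (0 : ℂ) ∈ φ.target := by rw [← hp0]; exact φ.map_source hp
  have hsymm : φ.symm 0 = p := by rw [← hp0]; exact φ.left_inv hp
  have hc : Tendsto φ.symm (𝓝 0) (𝓝 p) := by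
    have := (φ.continuousAt_symm htgt).tendsto
    rwa [hsymm] at this
  have e1 : ∀ᶠ z in 𝓝 (0 : ℂ), z ∈ φ.target ∧ φ.symm z ∈ V := by
    filter_upwards [φ.open_target.mem_nhds htgt, hc.eventually hV] with z h1 h2 using ⟨h1, h2⟩
  have hmul : Tendsto (fun z => ζ * z) (𝓝 (0 : ℂ)) (𝓝 0) := by
    have : Continuous fun z : ℂ => ζ * z := by fun_prop
    simpa using this.tendsto 0
  have e2 := hmul.eventually e1
  have e4 : ∃ᶠ z in 𝓝 (0 : ℂ), z ≠ 0 := by
    have : (𝓝[≠] (0 : ℂ)).NeBot := inferInstance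
    exact frequently_iff_neBot.mpr (by
      have h' : 𝓝 (0 : ℂ) ⊓ 𝓟 {t | t ≠ 0} = 𝓝[≠] 0 := rfl
      rw [h']; exact this)
  obtain ⟨z, hz0, ⟨hz1, hz2⟩, ⟨hz3, hz4⟩⟩ := (e4.and_eventually (e1.and e2)).exists
  obtain ⟨a1, a2⟩ := hmod _ (φ.map_target hz1)
  obtain ⟨b1, b2⟩ := hmod _ (φ.map_target hz3)
  rw [φ.right_inv hz1] at a2
  rw [φ.right_inv hz3, mul_pow, hprim.pow_eq_one, one_mul, ← a2] at b2
  have h3 := ψ.injOn b1 a1 b2
  have h4 := hinj hz4 hz2 h3
  have h5 : ζ * z = z := by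
    rw [← φ.right_inv hz3, h4, φ.right_inv hz1]
  apply hζ1
  have : (ζ - 1) * z = 0 := by linear_combination h5
  rcases mul_eq_zero.mp this with h6 | h6
  · linear_combination h6
  · exact absurd h6 hz0

theorem crit_subset : crit f ⊆ Six := by
  rintro p ⟨d, hd, h⟩
  by_contra hp
  exact not_locInj_of_localDegree hd h (f_locInj hp)

/-- the curve -/
def Eq0 : Set S2 := {v | (v : V3) 2 = 0}

def Four : Set S2 := {v | (v : V3) 2 = 0 ∧ ((v : V3) 0 = 0 ∨ (v : V3) 1 = 0)}

theorem f_coe_apply (v : S2) (i : Fin 3) : (f v : V3) i = ‖F (v : V3)‖⁻¹ * F (v : V3) i := rfl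

theorem T2_zero_left (y : ℝ) : T2 0 y = 0 := by unfold T2; simp
theorem T2_zero_right (x : ℝ) : T2 x 0 = 0 := by unfold T2; simp

theorem f_Six {v : S2} (hv : v ∈ Six) : f v ∈ Four := by
  have key : F (v : V3) 2 = 0 ∧ (F (v : V3) 0 = 0 ∨ F (v : V3) 1 = 0) := by
    rw [F_zero, F_one, F_two]
    rcases hv with ⟨h1, h2⟩ | ⟨h1, h2⟩ | ⟨h1, h2⟩
    · rw [h1, h2, T2_zero_left, T2_zero_right]; simp [T1]
    · rw [h1, h2, T2_zero_left, T2_zero_left]; simp [T1]
    · rw [h1, h2, T2_zero_right, T2_zero_right]; simp [T1]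
  refine ⟨?_, ?_⟩
  · rw [f_coe_apply, key.1, mul_zero]
  · rcases key.2 with h | h
    · left; rw [f_coe_apply, h, mul_zero]
    · right; rw [f_coe_apply, h, mul_zero]

theorem Four_subset_Six : Four ⊆ Six := by
  rintro v ⟨h1, h2 | h2⟩
  · right; left; exact ⟨h2, h1⟩
  · right; right; exact ⟨h2, h1⟩

theorem post_subset_Four : post f ⊆ Four := by
  apply iUnion_subset
  intro n
  rintro _ ⟨v, hv, rfl⟩
  have hv6 := crit_subset hv
  have key : ∀ m, f^[m] v ∈ Six := by
    intro m
    induction m with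
    | zero => exact hv6
    | succ m ih =>
      rw [Function.iterate_succ_apply']
      exact Four_subset_Six (f_Six ih)
  rw [Function.iterate_succ_apply']
  exact f_Six (key n)

theorem sq_eq_one_iff_real {x : ℝ} (h : x ^ 2 = 1) : x = 1 ∨ x = -1 :=
  sq_eq_sq_iff_eq_or_eq_neg.mp (by rw [h]; norm_num)

theorem Four_finite : Four.Finite := by
  have hinj : Function.Injective fun v : S2 => ((v : V3) 0, (v : V3) 1, (v : V3) 2) := by
    intro x y h
    simp only [Prod.mk.injEq] at h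
    exact Subtype.ext (v3_ext h.1 h.2.1 h.2.2)
  have hfin : (({-1, 0, 1} : Set ℝ) ×ˢ ({-1, 0, 1} : Set ℝ) ×ˢ ({0} : Set ℝ)).Finite :=
    (Set.toFinite _).prod ((Set.toFinite _).prod (Set.toFinite _))
  apply (hfin.preimage hinj.injOn).subset
  have one : ∀ x : ℝ, x ^ 2 = 1 → x ∈ ({-1, 0, 1} : Set ℝ) := by
    intro x hx
    rcases sq_eq_one_iff_real hx with h | h
    · right; right; exact h
    · left; exact h
  rintro v ⟨h1, h2⟩
  have hs := sum_sq v
  rw [h1] at hs
  refine ⟨?_, ?_, h1⟩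
  · rcases h2 with h | h
    · simp [h]
    · apply one; rw [h] at hs; linarith
  · rcases h2 with h | h
    · apply one; rw [h] at hs; linarith
    · simp [h]

theorem post_finite : (post f).Finite := Four_finite.subset post_subset_Four

theorem post_subset_Eq0 : post f ⊆ Eq0 := fun _ hv => (post_subset_Four hv).1

/-- the six points are critical -/
theorem Six_subset_crit : Six ⊆ crit f := by
  intro p hp
  refine ⟨2, le_rfl, ?_⟩
  by_cases h2 : (p : V3) 2 = 1
  · exact localDegree_north h2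
  · rw [← unstereo_st h2]
    have hs := sum_sq p
    rcases hp with ⟨a, b⟩ | ⟨a, b⟩ | ⟨a, b⟩
    · have h : st p = 0 := by
        apply Complex.ext <;> simp [st, a, b]
      rw [h]
      obtain ⟨Φ, Ψ, a1, a2, a3, a4, a5, a6, a7, _⟩ := model_zero
      exact ⟨by norm_num, Φ, Ψ, a1, a2, a3, a4, a5, a6, a7⟩
    · apply localDegree_neg_one
      rw [a, b] at hs
      apply Complex.ext
      · simp [st, a, b, sq]; linarith
      · simp [st, a, b, sq]
    · apply localDegree_one
      rw [a, b] at hs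
      apply Complex.ext
      · simp [st, a, b, sq]; linarith
      · simp [st, a, b, sq]

theorem ncard_four {α : Type*} {a b c d : α} (n1 : a ≠ b) (n2 : a ≠ c) (n3 : a ≠ d) (n4 : b ≠ c)
    (n5 : b ≠ d) (n6 : c ≠ d) : ({a, b, c, d} : Set α).ncard = 4 := by
  classical
  have : ({a, b, c, d} : Set α) = (({a, b, c, d} : Finset α) : Set α) := by simp
  rw [this, Set.ncard_coe_finset]
  rw [Finset.card_insert_of_notMem (by simp [n1, n2, n3]),
    Finset.card_insert_of_notMem (by simp [n4, n5]), Finset.card_insert_of_notMem (by simp [n6]),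
    Finset.card_singleton]

theorem hasDegree_f : HasDegree f 4 := by
  intro y hy
  obtain ⟨p, rfl⟩ := f_surj y
  have hp : p ∉ Six := fun h => hy ⟨p, Six_subset_crit h, rfl⟩
  have e : f ⁻¹' {f p} = {p, s1 p, s2 p, s3 p} := by
    ext v
    constructor
    · intro hv
      rcases f_inj (Eq.symm hv) with h | h | h | h
      · left; exact h
      · right; left; exact h
      · right; right; left; exact h
      · right; right; right; exact h
    · rintro (h | h | h | h)
      · rw [h]; rfl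
      · rw [h]; exact f_s1 p
      · rw [h]; exact f_s2 p
      · rw [mem_singleton_iff] at h; rw [h]; exact f_s3 p
  have c : ∀ {x : ℝ}, x = -x → x = 0 := fun h => by linarith
  have get : ∀ {u v : S2}, u = v → ∀ i, (u : V3) i = (v : V3) i := by
    rintro u v rfl i; rfl
  have n1 : p ≠ s1 p := by
    intro h
    apply hp; right; right
    exact ⟨c (by simpa [s1_coe, g1] using get h 1), c (by simpa [s1_coe, g1] using get h 2)⟩
  have n2 : p ≠ s2 p := by
    intro h
    apply hp; right; left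
    exact ⟨c (by simpa [s2_coe, g2] using get h 0), c (by simpa [s2_coe, g2] using get h 2)⟩
  have n3 : p ≠ s3 p := by
    intro h
    apply hp; left
    exact ⟨c (by simpa [s3_coe, g3] using get h 0), c (by simpa [s3_coe, g3] using get h 1)⟩
  have n4 : s1 p ≠ s2 p := by
    intro h
    apply hp; left
    have h0 : (p : V3) 0 = -(p : V3) 0 := by simpa [s1_coe, s2_coe, g1, g2] using get h 0
    have h1 : -(p : V3) 1 = (p : V3) 1 := by simpa [s1_coe, s2_coe, g1, g2] using get h 1
    exact ⟨c h0, c h1.symm⟩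
  have n5 : s1 p ≠ s3 p := by
    intro h
    apply hp; right; left
    have h0 : (p : V3) 0 = -(p : V3) 0 := by simpa [s1_coe, s3_coe, g1, g3] using get h 0
    have h1 : -(p : V3) 2 = (p : V3) 2 := by simpa [s1_coe, s3_coe, g1, g3] using get h 2
    exact ⟨c h0, c h1.symm⟩
  have n6 : s2 p ≠ s3 p := by
    intro h
    apply hp; right; right
    have h0 : (p : V3) 1 = -(p : V3) 1 := by simpa [s2_coe, s3_coe, g2, g3] using get h 1
    have h1 : -(p : V3) 2 = (p : V3) 2 := by simpa [s2_coe, s3_coe, g2, g3] using get h 2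
    exact ⟨c h0, c h1.symm⟩
  rw [e, ncard_four n1 n2 n3 n4 n5 n6]

theorem isThurstonMap_f : IsThurstonMap f :=
  ⟨isBranchedCovering_f, ⟨4, by norm_num, hasDegree_f⟩, post_finite⟩

theorem isJordanCurve_Eq0 : IsJordanCurve Eq0 := by
  refine ⟨fun ξ => unstereo ξ, continuous_unstereo.comp (by fun_prop), ?_, ?_⟩
  · intro x y h
    exact Circle.ext (unstereo_injective h)
  · ext v
    constructor
    · rintro ⟨ξ, rfl⟩
      change (unstereo (ξ : ℂ) : V3) 2 = 0
      rw [unstereo_two, Circle.norm_coe]; norm_num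
    · intro hv
      have hv' : (v : V3) 2 = 0 := hv
      have h1 : (v : V3) 2 ≠ 1 := by rw [hv']; norm_num
      have h2 := unstereo_st h1
      have h3 : ‖st v‖ = 1 := by
        rw [← h2, unstereo_two, div_eq_zero_iff] at hv'
        rcases hv' with h | h
        · have h4 : ‖st v‖ ^ 2 = 1 := by linarith
          exact (pow_eq_one_iff_of_nonneg (norm_nonneg _) (by norm_num)).mp h4
        · exact absurd h (den_pos _).ne'
      refine ⟨⟨st v, ?_⟩, h2⟩
      exact mem_sphere_zero_iff_norm.mpr h3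

end Pool.Agent.Run7.h327.Th
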