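import Mathlib

set_option autoImplicit false

open Set Filter Topology

namespace Pool.Agent.Run7.h327.Th

theorem no_local_max {φ : ℝ → ℝ} {c ε : ℝ} (hε : 0 < ε)
    (hc : ContinuousOn φ (Ioo (c - ε) (c + ε))) (hi : InjOn φ (Ioo (c - ε) (c + ε)))
    (he : ∀ x ∈ Ioo (c - ε) (c + ε), φ x ≤ φ c) : False := by
  have hsub : Icc (c - ε / 2) (c + ε / 2) ⊆ Ioo (c - ε) (c + ε) := by
    intro x hx
    constructor <;> [linarith [hx.1]; linarith [hx.2]]
  have hab : c - ε / 2 ≤ c + ε / 2 := by linarith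
  have hcm : c ∈ Icc (c - ε / 2) (c + ε / 2) := by constructor <;> linarith
  rcases ContinuousOn.strictMonoOn_of_injOn_Icc' hab (hc.mono hsub) (hi.mono hsub) with h | h
  · have h1 := h hcm (right_mem_Icc.mpr hab) (by linarith)
    have h2 := he (c + ε / 2) (hsub (right_mem_Icc.mpr hab))
    linarith
  · have h1 := h (left_mem_Icc.mpr hab) hcm (by linarith)
    have h2 := he (c - ε / 2) (hsub (left_mem_Icc.mpr hab))
    linarith

/-- a continuous family of functions of one variable, locally injective except at one point -/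
structure Fam (h : ℝ → ℝ → ℝ) (s₀ w₀ δ : ℝ) : Prop where
  cont : ContinuousOn (fun x : ℝ × ℝ => h x.1 x.2)
    (Ioo (s₀ - δ) (s₀ + δ) ×ˢ Ioo (w₀ - δ) (w₀ + δ))
  loc : ∀ s ∈ Ioo (s₀ - δ) (s₀ + δ), ∀ w ∈ Ioo (w₀ - δ) (w₀ + δ), ¬ (s = s₀ ∧ w = w₀) →
    ∃ ε > 0, InjOn (h s) (Ioo (w - ε) (w + ε))

theorem Fam.neg {h : ℝ → ℝ → ℝ} {s₀ w₀ δ : ℝ} (H : Fam h s₀ w₀ δ) :
    Fam (fun s w => - h s w) s₀ w₀ δ := by
  refine ⟨H.cont.neg, ?_⟩
  intro s hs w hw hne
  obtain ⟨ε, hε, hi⟩ := H.loc s hs w hw hne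
  exact ⟨ε, hε, fun x hx y hy hxy => hi hx hy (neg_injective hxy)⟩

theorem Fam.slice_cont {h : ℝ → ℝ → ℝ} {s₀ w₀ δ : ℝ} (H : Fam h s₀ w₀ δ) {s : ℝ}
    (hs : s ∈ Ioo (s₀ - δ) (s₀ + δ)) : ContinuousOn (h s) (Ioo (w₀ - δ) (w₀ + δ)) := by
  have := H.cont.comp (f := fun w : ℝ => (s, w)) (s := Ioo (w₀ - δ) (w₀ + δ)) (by fun_prop)
    (fun w hw => ⟨hs, hw⟩)
  exact this

theorem Fam.max_eq {h : ℝ → ℝ → ℝ} {s₀ w₀ δ : ℝ} (H : Fam h s₀ w₀ δ) {s : ℝ}
    (hs : s ∈ Ioo (s₀ - δ) (s₀ + δ)) {p q c : ℝ} (hp : w₀ - δ < p) (hq : q < w₀ + δ)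
    (hc : c ∈ Ioo p q) (hm : ∀ x ∈ Icc p q, h s x ≤ h s c) : s = s₀ ∧ c = w₀ := by
  by_contra hne
  have hcm : c ∈ Ioo (w₀ - δ) (w₀ + δ) := ⟨hp.trans hc.1, hc.2.trans hq⟩
  obtain ⟨ε, hε, hi⟩ := H.loc s hs c hcm hne
  set η := min ε (min (c - p) (q - c)) with hη
  have hη0 : 0 < η := lt_min hε (lt_min (by linarith [hc.1]) (by linarith [hc.2]))
  have h1 : η ≤ ε := min_le_left _ _
  have h2 : η ≤ c - p := (min_le_right _ _).trans (min_le_left _ _)
  have h3 : η ≤ q - c := (min_le_right _ _).trans (min_le_right _ _)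
  apply no_local_max (φ := h s) (c := c) hη0
  · apply (H.slice_cont hs).mono
    intro x hx
    constructor <;> [linarith [hx.1]; linarith [hx.2]]
  · apply hi.mono
    intro x hx
    constructor <;> [linarith [hx.1]; linarith [hx.2]]
  · intro x hx
    apply hm
    constructor <;> [linarith [hx.1]; linarith [hx.2]]

theorem not_inj_of_const {φ : ℝ → ℝ} {p q v : ℝ} (hpq : p < q) (hv : ∀ x ∈ Ioo p q, φ x = v)
    {ε : ℝ} (hε : 0 < ε) (hi : InjOn φ (Ioo ((p + q) / 2 - ε) ((p + q) / 2 + ε))) : False := by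
  set m := (p + q) / 2
  set η := min ε (q - m) / 2 with hη
  have hqm : 0 < q - m := by simp only [m]; linarith
  have hη0 : 0 < η := half_pos (lt_min hε hqm)
  have h1 : η < ε := by
    have := min_le_left ε (q - m); linarith
  have h2 : η < q - m := by
    have := min_le_right ε (q - m); linarith
  have hm1 : m ∈ Ioo p q := by constructor <;> simp only [m] <;> linarith
  have := hi (x₁ := m) (x₂ := m + η) ⟨by linarith, by linarith⟩ ⟨by linarith, by linarith⟩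
    ((hv m hm1).trans (hv (m + η) ⟨by linarith [hm1.1], by linarith⟩).symm)
  linarith

theorem Fam.noMax {h : ℝ → ℝ → ℝ} {s₀ w₀ δ : ℝ} (hδ : 0 < δ) (H : Fam h s₀ w₀ δ) {s : ℝ}
    (hs : s ∈ Ioo (s₀ - δ) (s₀ + δ)) {p q c : ℝ} (hp : w₀ - δ < p) (hq : q < w₀ + δ)
    (hc : c ∈ Ioo p q) (hm : ∀ x ∈ Icc p q, h s x ≤ h s c) : False := by
  obtain ⟨rfl, rfl⟩ := H.max_eq hs hp hq hc hm
  -- strict maximum
  have hP : ∃ p' ∈ Ioo p c, h s p' < h s c := by
    by_contra hcon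
    push Not at hcon
    have hv : ∀ x ∈ Ioo p c, h s x = h s c := fun x hx =>
      le_antisymm (hm x ⟨hx.1.le, hx.2.le.trans hc.2.le⟩) (hcon x hx)
    obtain ⟨ε, hε, hi⟩ := H.loc s hs ((p + c) / 2) ⟨by linarith [hc.1], by linarith [hc.1]⟩
      (by rintro ⟨_, h⟩; linarith [hc.1])
    exact not_inj_of_const hc.1 hv hε hi
  have hQ : ∃ q' ∈ Ioo c q, h s q' < h s c := by
    by_contra hcon
    push Not at hcon
    have hv : ∀ x ∈ Ioo c q, h s x = h s c := fun x hx =>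
      le_antisymm (hm x ⟨hc.1.le.trans hx.1.le, hx.2.le⟩) (hcon x hx)
    obtain ⟨ε, hε, hi⟩ := H.loc s hs ((c + q) / 2) ⟨by linarith [hc.2], by linarith [hc.2]⟩
      (by rintro ⟨_, h⟩; linarith [hc.2])
    exact not_inj_of_const hc.2 hv hε hi
  obtain ⟨p', hp', hp1⟩ := hP
  obtain ⟨q', hq', hq1⟩ := hQ
  -- perturb s
  have hcont : ∀ w ∈ Ioo (c - δ) (c + δ), ContinuousAt (fun t => h t w) s := by
    intro w hw
    have h1 : ContinuousAt (fun x : ℝ × ℝ => h x.1 x.2) (s, w) :=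
      H.cont.continuousAt (prod_mem_nhds (Ioo_mem_nhds hs.1 hs.2) (Ioo_mem_nhds hw.1 hw.2))
    exact ContinuousAt.comp (f := fun t : ℝ => (t, w)) h1 (by fun_prop)
  have c1 := hcont p' ⟨by linarith [hp'.1], by linarith [hp'.2]⟩
  have c2 := hcont q' ⟨by linarith [hq'.1], by linarith [hq'.2]⟩
  have c3 := hcont c ⟨by linarith, by linarith⟩
  have e1 := c1.eventually_lt c3 hp1
  have e2 := c2.eventually_lt c3 hq1
  have e3 : ∀ᶠ t in 𝓝 s, t ∈ Ioo (s - δ) (s + δ) := Ioo_mem_nhds hs.1 hs.2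
  have e4 : ∃ᶠ t in 𝓝 s, t ≠ s := by
    have : (𝓝[≠] s).NeBot := inferInstance
    exact frequently_iff_neBot.mpr (by
      have h' : 𝓝 s ⊓ 𝓟 {t | t ≠ s} = 𝓝[≠] s := rfl
      rw [h']; exact this)
  obtain ⟨t, ht4, ⟨ht1, ht2⟩, ht3⟩ := (e4.and_eventually ((e1.and e2).and e3)).exists
  -- maximum of h t on [p', q']
  have hpq : p' < q' := hp'.2.trans hq'.1
  have hsl : ContinuousOn (h t) (Icc p' q') := (H.slice_cont ht3).mono (by
    intro x hx
    exact ⟨by linarith [hx.1, hp'.1], by linarith [hx.2, hq'.2]⟩)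
  obtain ⟨c', hc', hmax⟩ := isCompact_Icc.exists_isMaxOn (nonempty_Icc.mpr hpq.le) hsl
  have hcc : c ∈ Icc p' q' := ⟨hp'.2.le, hq'.1.le⟩
  have hge : h t c ≤ h t c' := hmax hcc
  have hne1 : c' ≠ p' := by rintro rfl; linarith
  have hne2 : c' ≠ q' := by rintro rfl; linarith
  have hcI : c' ∈ Ioo p' q' := ⟨lt_of_le_of_ne hc'.1 (Ne.symm hne1), lt_of_le_of_ne hc'.2 hne2⟩
  obtain ⟨h1, _⟩ := H.max_eq ht3 (by linarith [hp'.1]) (by linarith [hq'.2]) hcI
    (fun x hx => hmax hx)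
  exact ht4 h1

theorem Fam.slice_inj {h : ℝ → ℝ → ℝ} {s₀ w₀ δ : ℝ} (hδ : 0 < δ) (H : Fam h s₀ w₀ δ) {s : ℝ}
    (hs : s ∈ Ioo (s₀ - δ) (s₀ + δ)) : InjOn (h s) (Ioo (w₀ - δ) (w₀ + δ)) := by
  have key : ∀ w₁ ∈ Ioo (w₀ - δ) (w₀ + δ), ∀ w₂ ∈ Ioo (w₀ - δ) (w₀ + δ), w₁ < w₂ →
      h s w₁ ≠ h s w₂ := by
    intro w₁ h1 w₂ h2 hlt heq
    have hcont : ContinuousOn (h s) (Icc w₁ w₂) := (H.slice_cont hs).mono (by
      intro x hx
      exact ⟨by linarith [hx.1, h1.1], by linarith [hx.2, h2.2]⟩)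
    obtain ⟨c, hc, he⟩ := exists_Ioo_extr_on_Icc hlt hcont heq
    rcases he with he | he
    · exact H.neg.noMax hδ hs h1.1 h2.2 hc (fun x hx => neg_le_neg (he hx))
    · exact H.noMax hδ hs h1.1 h2.2 hc (fun x hx => he hx)
  intro x hx y hy hxy
  rcases lt_trichotomy x y with h1 | h1 | h1
  · exact absurd hxy (key x hx y hy h1)
  · exact h1
  · exact absurd hxy.symm (key y hy x hx h1)

abbrev E2 : Type := EuclideanSpace ℝ (Fin 2)

/-- the linear form with coefficients `a`, `b` -/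
noncomputable def form (a b : ℝ) : E2 →L[ℝ] ℝ :=
  a • EuclideanSpace.proj (0 : Fin 2) + b • EuclideanSpace.proj (1 : Fin 2)

theorem form_apply (a b : ℝ) (v : E2) : form a b v = a * v 0 + b * v 1 := by
  simp [form]

theorem clm_eq_form (k : E2 →L[ℝ] ℝ) : ∃ a b, k = form a b := by
  refine ⟨k (EuclideanSpace.single 0 1), k (EuclideanSpace.single 1 1), ?_⟩
  ext v
  have hv : v = v 0 • EuclideanSpace.single 0 (1 : ℝ) + v 1 • EuclideanSpace.single 1 (1 : ℝ) := by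
    ext i
    fin_cases i <;> simp
  rw [form_apply]
  conv_lhs => rw [hv]
  rw [map_add, map_smul, map_smul, smul_eq_mul, smul_eq_mul]
  ring

theorem form_pair_inj {a b : ℝ} (h : a ^ 2 + b ^ 2 ≠ 0) {v : E2} (h1 : form a b v = 0)
    (h2 : form (-b) a v = 0) : v = 0 := by
  rw [form_apply] at h1 h2
  have e0 : (a ^ 2 + b ^ 2) * v 0 = 0 := by linear_combination a * h1 - b * h2
  have e1 : (a ^ 2 + b ^ 2) * v 1 = 0 := by linear_combination b * h1 + a * h2
  have f0 := (mul_eq_zero.mp e0).resolve_left h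
  have f1 := (mul_eq_zero.mp e1).resolve_left h
  ext i
  fin_cases i
  · simpa using f0
  · simpa using f1

/-- the equivalence given by two orthogonal forms -/
theorem exists_equiv {a b : ℝ} (h : a ^ 2 + b ^ 2 ≠ 0) :
    ∃ e : E2 ≃L[ℝ] ℝ × ℝ, (e : E2 →L[ℝ] ℝ × ℝ) = (form a b).prod (form (-b) a) := by
  have hinj : Function.Injective ((form a b).prod (form (-b) a)).toLinearMap := by
    rw [← LinearMap.ker_eq_bot, LinearMap.ker_eq_bot']
    intro v hv
    have h1 : form a b v = 0 := congrArg Prod.fst hv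
    have h2 : form (-b) a v = 0 := congrArg Prod.snd hv
    exact form_pair_inj h h1 h2
  refine ⟨(LinearMap.linearEquivOfInjective _ hinj (by simp)).toContinuousLinearEquiv, ?_⟩
  ext v <;> rfl

/-- A `C¹` map of the plane that is locally injective at every point near `x₀` other than `x₀`, but
not at `x₀`, has derivative zero at `x₀`. -/
theorem fderiv_eq_zero {u : E2 → E2} {x₀ : E2} (hu : ContDiffAt ℝ 1 u x₀)
    (hloc : ∀ᶠ x in 𝓝 x₀, x ≠ x₀ → ∃ V ∈ 𝓝 x, InjOn u V)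
    (hnot : ¬ ∃ V ∈ 𝓝 x₀, InjOn u V) : fderiv ℝ u x₀ = 0 := by
  by_contra hD
  set D := fderiv ℝ u x₀ with hDdef
  obtain ⟨e, he⟩ : ∃ e, D e ≠ 0 := by
    by_contra hcon
    push Not at hcon
    exact hD (ContinuousLinearMap.ext hcon)
  set a := (D e) 0 with ha
  set b := (D e) 1 with hb
  have hab : a ^ 2 + b ^ 2 ≠ 0 := by
    intro h0
    have h1 : a = 0 := by nlinarith [sq_nonneg a, sq_nonneg b]
    have h2 : b = 0 := by nlinarith [sq_nonneg a, sq_nonneg b]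
    apply he
    ext i
    fin_cases i
    · simpa using h1
    · simpa using h2
  obtain ⟨a', b', hk⟩ := clm_eq_form ((form a b).comp D)
  have hab' : a' ^ 2 + b' ^ 2 ≠ 0 := by
    intro h0
    have h1 : a' = 0 := by nlinarith [sq_nonneg a', sq_nonneg b']
    have h2 : b' = 0 := by nlinarith [sq_nonneg a', sq_nonneg b']
    have h3 : form a b (D e) = 0 := by
      have := congrArg (fun k => k e) hk
      simp only [ContinuousLinearMap.comp_apply] at this
      rw [this, h1, h2, form_apply]; ring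
    rw [form_apply] at h3
    apply hab
    rw [← h3]
    ring
  obtain ⟨L, hL⟩ := exists_equiv hab'
  -- the coordinates
  set Ψ : E2 → ℝ × ℝ := fun x => (form a b (u x), form (-b') a' x) with hΨ
  have hstrict : HasStrictFDerivAt Ψ (L : E2 →L[ℝ] ℝ × ℝ) x₀ := by
    rw [hL, ← hk]
    apply HasStrictFDerivAt.prodMk
    · exact (form a b).hasStrictFDerivAt.comp x₀ (hu.hasStrictFDerivAt (by simp))
    · exact (form (-b') a').hasStrictFDerivAt
  set P := hstrict.toOpenPartialHomeomorph Ψ with hP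
  have hPc : ∀ x, P x = Ψ x := fun x => rfl
  have hx₀ : x₀ ∈ P.source := hstrict.mem_toOpenPartialHomeomorph_source
  set s₀ := form a b (u x₀) with hs₀
  set w₀ := form (-b') a' x₀ with hw₀
  have hPx₀ : P x₀ = (s₀, w₀) := rfl
  have hsx₀ : P.symm (s₀, w₀) = x₀ := by rw [← hPx₀]; exact P.left_inv hx₀
  have htgt : (s₀, w₀) ∈ P.target := by rw [← hPx₀]; exact P.map_source hx₀
  -- a good neighbourhood of x₀
  have hucont : ∀ᶠ x in 𝓝 x₀, ContinuousAt u x := by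
    filter_upwards [hu.eventually (by simp)] with x hx using hx.continuousAt
  have hgood : ∀ᶠ y in 𝓝 (s₀, w₀), y ∈ P.target ∧ ContinuousAt u (P.symm y) ∧
      (P.symm y ≠ x₀ → ∃ V ∈ 𝓝 (P.symm y), InjOn u V) := by
    have hcs : Tendsto P.symm (𝓝 (s₀, w₀)) (𝓝 x₀) := by
      have := (P.continuousAt_symm htgt).tendsto
      rwa [hsx₀] at this
    filter_upwards [P.open_target.mem_nhds htgt, hcs.eventually hucont, hcs.eventually hloc] with
      y h1 h2 h3 using ⟨h1, h2, h3⟩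
  obtain ⟨δ, hδ, hball⟩ := Metric.eventually_nhds_iff_ball.mp hgood
  have hsq : ∀ s ∈ Ioo (s₀ - δ) (s₀ + δ), ∀ w ∈ Ioo (w₀ - δ) (w₀ + δ),
      (s, w) ∈ Metric.ball (s₀, w₀) δ := by
    intro s hs w hw
    rw [Metric.mem_ball, Prod.dist_eq, max_lt_iff, Real.dist_eq, Real.dist_eq, abs_lt, abs_lt]
    exact ⟨⟨by linarith [hs.1], by linarith [hs.2]⟩, ⟨by linarith [hw.1], by linarith [hw.2]⟩⟩
  -- the family
  set h : ℝ → ℝ → ℝ := fun s w => form (-b) a (u (P.symm (s, w))) with hh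
  have hfst : ∀ s w, (s, w) ∈ P.target → form a b (u (P.symm (s, w))) = s := by
    intro s w hsw
    have := P.right_inv hsw
    exact congrArg Prod.fst this
  -- u at two points
  have hueq : ∀ s w s' w', (s, w) ∈ P.target → (s', w') ∈ P.target → s = s' →
      h s w = h s' w' → u (P.symm (s, w)) = u (P.symm (s', w')) := by
    intro s w s' w' h1 h2 h3 h4
    have e1 : form a b (u (P.symm (s, w)) - u (P.symm (s', w'))) = 0 := by
      rw [map_sub, hfst s w h1, hfst s' w' h2, h3, sub_self]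
    have e2 : form (-b) a (u (P.symm (s, w)) - u (P.symm (s', w'))) = 0 := by
      rw [map_sub, sub_eq_zero]; exact h4
    exact sub_eq_zero.mp (form_pair_inj hab e1 e2)
  have H : Fam h s₀ w₀ δ := by
    constructor
    · intro y hy
      obtain ⟨h1, h2, _⟩ := hball (y.1, y.2) (hsq _ hy.1 _ hy.2)
      apply ContinuousAt.continuousWithinAt
      have h3 : ContinuousAt P.symm (y.1, y.2) := P.continuousAt_symm h1
      have h4 : ContinuousAt (fun y : ℝ × ℝ => u (P.symm y)) (y.1, y.2) :=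
        ContinuousAt.comp h2 h3
      exact ContinuousAt.comp (form (-b) a).continuous.continuousAt h4
    · intro s hs w hw hne
      obtain ⟨h1, h2, h3⟩ := hball (s, w) (hsq _ hs _ hw)
      have hne' : P.symm (s, w) ≠ x₀ := by
        intro h4
        apply hne
        have h5 : P (P.symm (s, w)) = P x₀ := by rw [h4]
        rw [P.right_inv h1, hPx₀] at h5
        exact ⟨congrArg Prod.fst h5, congrArg Prod.snd h5⟩
      obtain ⟨V, hV, hVi⟩ := h3 hne'
      have h6 : ∀ᶠ w' in 𝓝 w, (s, w') ∈ P.target ∧ P.symm (s, w') ∈ V := by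
        have h7 : Tendsto (fun w' : ℝ => (s, w')) (𝓝 w) (𝓝 (s, w)) := by
          exact (by fun_prop : Continuous fun w' : ℝ => (s, w')).tendsto w
        filter_upwards [h7.eventually (P.open_target.mem_nhds h1),
          h7.eventually ((P.continuousAt_symm h1).eventually hV)] with w' a1 a2 using ⟨a1, a2⟩
      obtain ⟨ε, hε, hb'⟩ := Metric.eventually_nhds_iff_ball.mp h6
      refine ⟨ε, hε, ?_⟩
      intro x hx y hy hxy
      rw [← Real.ball_eq_Ioo] at hx hy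
      obtain ⟨x1, x2⟩ := hb' x hx
      obtain ⟨y1, y2⟩ := hb' y hy
      have h8 := hVi x2 y2 (hueq _ _ _ _ x1 y1 rfl hxy)
      have h9 := congrArg P h8
      rw [P.right_inv x1, P.right_inv y1] at h9
      exact congrArg Prod.snd h9
  -- conclude
  apply hnot
  have hsquare : ∀ᶠ x in 𝓝 x₀, x ∈ P.source ∧ P x ∈ Ioo (s₀ - δ) (s₀ + δ) ×ˢ
      Ioo (w₀ - δ) (w₀ + δ) := by
    have : Tendsto P (𝓝 x₀) (𝓝 (s₀, w₀)) := (P.continuousAt hx₀).tendsto
    filter_upwards [P.open_source.mem_nhds hx₀, this.eventually (prod_mem_nhds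
      (Ioo_mem_nhds (by linarith : s₀ - δ < s₀) (by linarith : s₀ < s₀ + δ))
      (Ioo_mem_nhds (by linarith : w₀ - δ < w₀) (by linarith : w₀ < w₀ + δ)))] with x h1 h2
      using ⟨h1, h2⟩
  refine ⟨_, hsquare, ?_⟩
  rintro x ⟨hx, hx1, hx2⟩ y ⟨hy, hy1, hy2⟩ hxy
  have e1 : (P x).1 = (P y).1 := by
    change form a b (u x) = form a b (u y)
    rw [hxy]
  have e2 : h (P x).1 (P x).2 = h (P x).1 (P y).2 := by
    have f1 : P.symm ((P x).1, (P x).2) = x := P.left_inv hx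
    have f2 : P.symm ((P x).1, (P y).2) = y := by rw [e1]; exact P.left_inv hy
    simp only [hh]
    rw [f1, f2, hxy]
  have e3 := H.slice_inj hδ hx1 hx2 hy2 e2
  have e4 : P x = P y := Prod.ext e1 e3
  exact P.injOn hx hy e4

/-- If moreover `x₀` is a fixed point, it has arbitrarily small invariant neighbourhoods. -/
theorem small_invariant {u : E2 → E2} {x₀ : E2} (hfix : u x₀ = x₀) (hu : DifferentiableAt ℝ u x₀)
    (h0 : fderiv ℝ u x₀ = 0) : ∀ᶠ r in 𝓝[>] (0 : ℝ), ∀ x ∈ Metric.ball x₀ r, u x ∈ Metric.ball x₀ r := by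
  have h1 := hu.hasFDerivAt
  rw [h0, hasFDerivAt_iff_isLittleO] at h1
  have h2 := h1.def (show (0 : ℝ) < 1 by norm_num)
  obtain ⟨ε, hε, hb⟩ := Metric.eventually_nhds_iff_ball.mp h2
  filter_upwards [Ioo_mem_nhdsGT hε] with r hr x hx
  have h3 := hb x (Metric.ball_subset_ball hr.2.le hx)
  rw [hfix] at h3
  simp only [zero_apply, sub_zero, one_mul] at h3
  rw [Metric.mem_ball, dist_eq_norm] at hx ⊢
  exact h3.trans_lt hx

end Pool.Agent.Run7.h327.Th
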