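import Mathlib
import Pool.Agent.Run7.h327.Th.Crit

set_option autoImplicit false

open Set Filter Topology

namespace Pool.Agent.Run7.h327.Th

/-- the `ℓ¹`-normalised coordinates -/
noncomputable def co (v : S2) : V3 := (l1 (v : V3))⁻¹ • (v : V3)

theorem l1_pos (v : S2) : 0 < l1 (v : V3) :=
  lt_of_le_of_ne (l1_nonneg _) (fun h => ne_zero_S2 v (l1_eq_zero.mp h.symm))

theorem l1_co (v : S2) : l1 (co v) = 1 := by
  unfold co
  rw [l1_smul (inv_nonneg.mpr (l1_pos v).le), inv_mul_cancel₀ (l1_pos v).ne']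

theorem co_f (v : S2) : co (f v) = F (co v) := by
  have h1 := l1_pos v
  have h2 := norm_F_pos v
  unfold co
  rw [F_smul (inv_nonneg.mpr h1.le), f_coe, l1_smul (inv_nonneg.mpr h2.le), l1_F, smul_smul]
  congr 1
  field_simp

theorem co_apply (v : S2) (i : Fin 3) : co v i = (l1 (v : V3))⁻¹ * (v : V3) i := rfl

theorem norm_co (v : S2) : ‖co v‖ = (l1 (v : V3))⁻¹ := by
  unfold co
  rw [norm_smul, norm_S2, mul_one, Real.norm_eq_abs, abs_of_pos (inv_pos.mpr (l1_pos v))]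

theorem l1_le (v : S2) : l1 (v : V3) ≤ 3 := by
  have h := sum_sq v
  have a0 : |(v : V3) 0| ≤ 1 := by
    rw [← sq_le_one_iff_abs_le_one]
    nlinarith [sq_nonneg ((v : V3) 1), sq_nonneg ((v : V3) 2)]
  have a1 : |(v : V3) 1| ≤ 1 := by
    rw [← sq_le_one_iff_abs_le_one]
    nlinarith [sq_nonneg ((v : V3) 0), sq_nonneg ((v : V3) 2)]
  have a2 : |(v : V3) 2| ≤ 1 := by
    rw [← sq_le_one_iff_abs_le_one]
    nlinarith [sq_nonneg ((v : V3) 1), sq_nonneg ((v : V3) 0)]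
  unfold l1; linarith

theorem dist_le_co (v v' : S2) : dist v v' ≤ 6 * ‖co v - co v'‖ := by
  have h1 := l1_pos v
  have h1' := l1_pos v'
  have e : (v : V3) - v' = (l1 (v : V3)) • (co v - co v') +
      (l1 (v : V3) - l1 (v' : V3)) • co v' := by
    have a : (l1 (v : V3)) • co v = v := by
      unfold co; rw [smul_smul, mul_inv_cancel₀ h1.ne', one_smul]
    have b : (l1 (v' : V3)) • co v' = v' := by
      unfold co; rw [smul_smul, mul_inv_cancel₀ h1'.ne', one_smul]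
    rw [smul_sub, sub_smul, a, b]
    abel
  have h2 : |(l1 (v : V3))⁻¹ - (l1 (v' : V3))⁻¹| ≤ ‖co v - co v'‖ := by
    rw [← norm_co, ← norm_co]
    exact abs_norm_sub_norm_le _ _
  have h3 : |l1 (v : V3) - l1 (v' : V3)| * (l1 (v' : V3))⁻¹ =
      l1 (v : V3) * |(l1 (v : V3))⁻¹ - (l1 (v' : V3))⁻¹| := by
    have : l1 (v : V3) - l1 (v' : V3) =
        - (l1 (v : V3) * l1 (v' : V3) * ((l1 (v : V3))⁻¹ - (l1 (v' : V3))⁻¹)) := by
      field_simp; ring
    rw [this, abs_neg, abs_mul, abs_mul, abs_of_pos h1, abs_of_pos h1']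
    field_simp
  have h4 : dist v v' = ‖(v : V3) - v'‖ := by rw [Subtype.dist_eq, dist_eq_norm]
  rw [h4, e]
  refine (norm_add_le _ _).trans ?_
  rw [norm_smul, norm_smul, norm_co, Real.norm_eq_abs, Real.norm_eq_abs, abs_of_pos h1, h3]
  have h5 := l1_le v
  have h6 := norm_nonneg (co v - co v')
  nlinarith [mul_le_mul_of_nonneg_left h2 h1.le, mul_le_mul_of_nonneg_right h5 h6]

def q (x : V3) : ℝ := x 0 ^ 2 + x 1 ^ 2

theorem abs_T2_of_ge {x y : ℝ} (h : |y| ≤ |x|) : |T2 x y| = 2 * |y| := by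
  have := T_norm x y
  unfold T1 at this
  rw [abs_of_nonneg (by linarith : 0 ≤ |x| - |y|)] at this
  linarith

theorem abs_T2_of_le {x y : ℝ} (h : |x| ≤ |y|) : |T2 x y| = 2 * |x| := by
  have := T_norm x y
  unfold T1 at this
  rw [abs_of_nonpos (by linarith : |x| - |y| ≤ 0)] at this
  linarith

theorem sq_sub_of_same {x y : ℝ} (h : 0 < x * y) : (x - y) ^ 2 = (|x| - |y|) ^ 2 := by
  have h1 : x * y = |x| * |y| := by rw [← abs_mul, abs_of_pos h]
  have h2 := sq_abs x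
  have h3 := sq_abs y
  nlinarith

theorem piece {x x' : V3} (h1 : l1 x = 1) (h1' : l1 x' = 1) (h0 : 0 < x 0 * x' 0)
    (h2 : 0 < x 1 * x' 1) (h3 : 0 < (|x 0| - |x 1|) * (|x' 0| - |x' 1|)) :
    q (x - x') ≤ 2 / 3 * q (F x - F x') := by
  have e0 := sq_sub_of_same h0
  have e1 := sq_sub_of_same h2
  unfold q
  simp only [PiLp.sub_apply, F_zero, F_one]
  rw [e0, e1]
  unfold l1 at h1 h1'
  rcases lt_trichotomy (|x 0| - |x 1|) 0 with h | h | h
  · have h' : |x' 0| - |x' 1| < 0 := by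
      by_contra hcon
      push Not at hcon
      nlinarith
    unfold T1
    rw [abs_T2_of_le (by linarith : |x 0| ≤ |x 1|), abs_T2_of_le (by linarith : |x' 0| ≤ |x' 1|)]
    have g1 : |x 2| = 1 - |x 0| - |x 1| := by linarith
    have g2 : |x' 2| = 1 - |x' 0| - |x' 1| := by linarith
    rw [g1, g2]
    set X := |x 0| - |x' 0| with hX
    set Y := |x 1| - |x' 1| with hY
    have r1 : |x 0| - |x 1| - (|x' 0| - |x' 1|) = X - Y := by rw [hX, hY]; ring
    have r2 : 1 - |x 0| - |x 1| - 2 * |x 0| - (1 - |x' 0| - |x' 1| - 2 * |x' 0|) =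
      -(3 * X + Y) := by rw [hX, hY]; ring
    rw [r1, r2]
    nlinarith [sq_nonneg (4 * X + Y), sq_nonneg Y, sq_nonneg X, sq_nonneg (Y + 4 * X),
      sq_nonneg (17 * X + 4 * Y)]
  · rw [h, zero_mul] at h3
    exact absurd h3 (lt_irrefl 0)
  · have h' : 0 < |x' 0| - |x' 1| := by
      by_contra hcon
      push Not at hcon
      nlinarith
    unfold T1
    rw [abs_T2_of_ge (by linarith : |x 1| ≤ |x 0|), abs_T2_of_ge (by linarith : |x' 1| ≤ |x' 0|)]
    have g1 : |x 2| = 1 - |x 0| - |x 1| := by linarith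
    have g2 : |x' 2| = 1 - |x' 0| - |x' 1| := by linarith
    rw [g1, g2]
    set X := |x 0| - |x' 0| with hX
    set Y := |x 1| - |x' 1| with hY
    have r1 : |x 0| - |x 1| - (|x' 0| - |x' 1|) = X - Y := by rw [hX, hY]; ring
    have r2 : 1 - |x 0| - |x 1| - 2 * |x 1| - (1 - |x' 0| - |x' 1| - 2 * |x' 1|) =
      -(X + 3 * Y) := by rw [hX, hY]; ring
    rw [r1, r2]
    nlinarith [sq_nonneg (4 * Y + X), sq_nonneg Y, sq_nonneg X, sq_nonneg (X + 4 * Y),
      sq_nonneg (17 * Y + 4 * X)]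

theorem same_sign {W : Set S2} (hW : IsPreconnected W) {φ : S2 → ℝ} (hφ : Continuous φ)
    (h0 : ∀ v ∈ W, φ v ≠ 0) {v v' : S2} (hv : v ∈ W) (hv' : v' ∈ W) : 0 < φ v * φ v' := by
  by_contra hcon
  push Not at hcon
  have h1 := h0 v hv
  have h2 := h0 v' hv'
  rcases lt_or_gt_of_ne h1 with a | a <;> rcases lt_or_gt_of_ne h2 with b | b
  · nlinarith [mul_pos_of_neg_of_neg a b]
  · obtain ⟨u, hu, hu0⟩ := hW.intermediate_value hv hv' hφ.continuousOn
      (show (0 : ℝ) ∈ Icc (φ v) (φ v') from ⟨a.le, b.le⟩)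
    exact h0 u hu hu0
  · obtain ⟨u, hu, hu0⟩ := hW.intermediate_value hv' hv hφ.continuousOn
      (show (0 : ℝ) ∈ Icc (φ v') (φ v) from ⟨b.le, a.le⟩)
    exact h0 u hu hu0
  · nlinarith [mul_pos a b]

theorem f_of_Eq0 {v : S2} (hv : (v : V3) 0 = 0 ∨ (v : V3) 1 = 0 ∨ (v : V3) 2 = 0) : f v ∈ Eq0 := by
  change (f v : V3) 2 = 0
  rw [f_coe_apply, F_two]
  rcases hv with h | h | h
  · rw [h, T2_zero_left, T2_zero_right]; simp
  · rw [h, T2_zero_right, T2_zero_right]; simp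
  · rw [h, T2_zero_left]; simp

theorem iterate_Eq0 {v : S2} (hv : v ∈ Eq0) (n : ℕ) : f^[n] v ∈ Eq0 := by
  induction n with
  | zero => exact hv
  | succ n ih =>
    rw [Function.iterate_succ_apply']
    exact f_of_Eq0 (Or.inr (Or.inr ih))

theorem f_diag {v : S2} (hv : |(v : V3) 0| - |(v : V3) 1| = 0) : (f v : V3) 0 = 0 := by
  rw [f_coe_apply, F_zero]
  unfold T1
  rw [hv, mul_zero]

theorem co_mul_pos {v v' : S2} {i : Fin 3} (h : 0 < (v : V3) i * (v' : V3) i) :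
    0 < co v i * co v' i := by
  rw [co_apply, co_apply]
  have h1 := inv_pos.mpr (l1_pos v)
  have h2 := inv_pos.mpr (l1_pos v')
  have : (l1 (v : V3))⁻¹ * (v : V3) i * ((l1 (v' : V3))⁻¹ * (v' : V3) i) =
    ((l1 (v : V3))⁻¹ * (l1 (v' : V3))⁻¹) * ((v : V3) i * (v' : V3) i) := by ring
  rw [this]
  positivity

theorem abs_co (v : S2) (i : Fin 3) : |co v i| = (l1 (v : V3))⁻¹ * |(v : V3) i| := by
  rw [co_apply, abs_mul, abs_of_pos (inv_pos.mpr (l1_pos v))]

theorem coord_cont (i : Fin 3) : Continuous fun v : S2 => (v : V3) i := by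
  have h4 : Continuous fun x : V3 => x i := by fun_prop
  exact h4.comp continuous_subtype_val

theorem q_bound (n : ℕ) : ∀ W : Set S2, IsPreconnected W → W ⊆ f^[n + 1] ⁻¹' Eq0ᶜ →
    ∀ v ∈ W, ∀ v' ∈ W, q (co v - co v') ≤ (2 / 3) ^ n * 8 := by
  induction n with
  | zero =>
    intro W _ _ v _ v' _
    have h1 := l1_co v
    have h2 := l1_co v'
    unfold l1 at h1 h2
    have b : ∀ x y z : ℝ, |x| + |y| + |z| = 1 → |x| ≤ 1 ∧ |y| ≤ 1 := by
      intro x y z h
      constructor <;> linarith [abs_nonneg x, abs_nonneg y, abs_nonneg z]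
    obtain ⟨a1, a2⟩ := b _ _ _ h1
    obtain ⟨b1, b2⟩ := b _ _ _ h2
    rw [abs_le] at a1 a2 b1 b2
    unfold q
    simp only [PiLp.sub_apply]
    nlinarith
  | succ n ih =>
    intro W hW hWs v hv v' hv'
    have hnot : ∀ u ∈ W, f^[n + 2] u ∉ Eq0 := fun u hu => hWs hu
    have n0 : ∀ u ∈ W, (u : V3) 0 ≠ 0 := by
      intro u hu h
      apply hnot u hu
      rw [Function.iterate_succ_apply]
      exact iterate_Eq0 (f_of_Eq0 (Or.inl h)) _
    have n1 : ∀ u ∈ W, (u : V3) 1 ≠ 0 := by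
      intro u hu h
      apply hnot u hu
      rw [Function.iterate_succ_apply]
      exact iterate_Eq0 (f_of_Eq0 (Or.inr (Or.inl h))) _
    have n2 : ∀ u ∈ W, |(u : V3) 0| - |(u : V3) 1| ≠ 0 := by
      intro u hu h
      apply hnot u hu
      rw [Function.iterate_succ_apply, Function.iterate_succ_apply]
      exact iterate_Eq0 (f_of_Eq0 (Or.inl (f_diag h))) _
    have s0 := same_sign hW (coord_cont 0) n0 hv hv'
    have s1' := same_sign hW (coord_cont 1) n1 hv hv'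
    have s2' := same_sign hW (((coord_cont 0).abs).sub (coord_cont 1).abs) n2 hv hv'
    have hp := piece (l1_co v) (l1_co v') (co_mul_pos s0) (co_mul_pos s1') (by
      rw [abs_co, abs_co, abs_co, abs_co, ← mul_sub, ← mul_sub]
      have h1 := inv_pos.mpr (l1_pos v)
      have h2 := inv_pos.mpr (l1_pos v')
      have : (l1 (v : V3))⁻¹ * (|(v : V3) 0| - |(v : V3) 1|) *
          ((l1 (v' : V3))⁻¹ * (|(v' : V3) 0| - |(v' : V3) 1|)) =
        ((l1 (v : V3))⁻¹ * (l1 (v' : V3))⁻¹) *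
          ((|(v : V3) 0| - |(v : V3) 1|) * (|(v' : V3) 0| - |(v' : V3) 1|)) := by ring
      rw [this]
      exact mul_pos (mul_pos h1 h2) s2')
    have hi := ih (f '' W) (hW.image _ continuous_f.continuousOn) (by
      rintro _ ⟨u, hu, rfl⟩
      have := hWs hu
      rw [mem_preimage, Function.iterate_succ_apply] at this
      exact this) (f v) ⟨v, hv, rfl⟩ (f v') ⟨v', hv', rfl⟩
    rw [co_f, co_f] at hi
    rw [pow_succ]
    linarith

theorem norm_bound (n : ℕ) {W : Set S2} (hW : IsPreconnected W) (hWs : W ⊆ f^[n + 1] ⁻¹' Eq0ᶜ)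
    {v v' : S2} (hv : v ∈ W) (hv' : v' ∈ W) : dist v v' ≤ 6 * √(24 * (2 / 3) ^ n) := by
  have hq := q_bound n W hW hWs v hv v' hv'
  have n2 : ∀ u ∈ W, (u : V3) 2 ≠ 0 := by
    intro u hu h
    apply hWs hu
    exact iterate_Eq0 (v := u) h _
  have n0 : ∀ u ∈ W, (u : V3) 0 ≠ 0 := by
    intro u hu h
    apply hWs hu
    rw [Function.iterate_succ_apply]
    exact iterate_Eq0 (f_of_Eq0 (Or.inl h)) _
  have n1 : ∀ u ∈ W, (u : V3) 1 ≠ 0 := by
    intro u hu h
    apply hWs hu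
    rw [Function.iterate_succ_apply]
    exact iterate_Eq0 (f_of_Eq0 (Or.inr (Or.inl h))) _
  have e0 := sq_sub_of_same (co_mul_pos (same_sign hW (coord_cont 0) n0 hv hv'))
  have e1 := sq_sub_of_same (co_mul_pos (same_sign hW (coord_cont 1) n1 hv hv'))
  have e2 := sq_sub_of_same (co_mul_pos (same_sign hW (coord_cont 2) n2 hv hv'))
  have h1 := l1_co v
  have h2 := l1_co v'
  unfold l1 at h1 h2
  have hn : ‖co v - co v'‖ ^ 2 ≤ 24 * (2 / 3) ^ n := by
    rw [EuclideanSpace.norm_sq_eq, Fin.sum_univ_three]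
    simp only [PiLp.sub_apply, Real.norm_eq_abs, sq_abs]
    unfold q at hq
    simp only [PiLp.sub_apply] at hq
    rw [e2, show |co v 2| - |co v' 2| = -((|co v 0| - |co v' 0|) + (|co v 1| - |co v' 1|)) by
      linarith]
    rw [e0, e1] at hq ⊢
    nlinarith [sq_nonneg ((|co v 0| - |co v' 0|) - (|co v 1| - |co v' 1|))]
  have hd := dist_le_co v v'
  have hs : ‖co v - co v'‖ ≤ √(24 * (2 / 3) ^ n) := Real.le_sqrt_of_sq_le hn
  linarith

theorem mesh_bound (n : ℕ) : mesh f (n + 1) Eq0 ≤ ENNReal.ofReal (6 * √(24 * (2 / 3) ^ n)) := by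
  unfold mesh
  apply iSup₂_le
  intro p _
  apply Metric.ediam_le
  intro x hx y hy
  rw [edist_dist]
  apply ENNReal.ofReal_le_ofReal
  exact norm_bound n isPreconnected_connectedComponentIn (connectedComponentIn_subset _ _) hx hy

theorem mesh_tendsto : Tendsto (fun n => mesh f n Eq0) atTop (𝓝 0) := by
  rw [← tendsto_add_atTop_iff_nat 1]
  have h1 : Tendsto (fun n : ℕ => 6 * √(24 * (2 / 3 : ℝ) ^ n)) atTop (𝓝 0) := by
    have h2 : Tendsto (fun n : ℕ => (2 / 3 : ℝ) ^ n) atTop (𝓝 0) :=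
      tendsto_pow_atTop_nhds_zero_of_lt_one (by norm_num) (by norm_num)
    have h3 := ((h2.const_mul 24).sqrt).const_mul 6
    simpa using h3
  have h4 := ENNReal.tendsto_ofReal h1
  rw [ENNReal.ofReal_zero] at h4
  exact tendsto_of_tendsto_of_tendsto_of_le_of_le tendsto_const_nhds h4 (fun n => bot_le)
    mesh_bound

theorem isExpandingThurstonMap_f : IsExpandingThurstonMap f :=
  ⟨isThurstonMap_f, Eq0, isJordanCurve_Eq0, post_subset_Eq0, mesh_tendsto⟩

end Pool.Agent.Run7.h327.Th
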