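import Mathlib
import Pool.Agent.Run7.h327.Th.Expand
import Pool.Agent.Run7.h327.Th.Deriv

set_option autoImplicit false

open Set Filter Topology
open scoped Manifold ContDiff

namespace Pool.Agent.Run7.h327.Th

/-- the fixed critical point `(1, 0, 0)` -/
noncomputable def e1 : S2 := unstereo 1

theorem e1_zero : (e1 : V3) 0 = 1 := by unfold e1; rw [unstereo_zero]; simp; norm_num
theorem e1_one : (e1 : V3) 1 = 0 := by unfold e1; rw [unstereo_one]; simp
theorem e1_two : (e1 : V3) 2 = 0 := by unfold e1; rw [unstereo_two]; simp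

theorem co_e1 : co e1 0 = 1 ∧ co e1 1 = 0 := by
  have h : l1 (e1 : V3) = 1 := by unfold l1; rw [e1_zero, e1_one, e1_two]; simp
  rw [co_apply, co_apply, h, e1_zero, e1_one]; simp

/-- the isolating neighbourhood -/
def N0 : Set S2 := {v | |(v : V3) 1| < (v : V3) 0}

noncomputable def rho (v : S2) : ℝ := (co v 0 - 1) ^ 2 + co v 1 ^ 2

theorem rho_f {v : S2} (hv : v ∈ N0) : 3 / 2 * rho v ≤ rho (f v) := by
  unfold rho
  rw [co_f, F_zero, F_one]
  have hl := inv_pos.mpr (l1_pos v)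
  have hv' : |(v : V3) 1| < (v : V3) 0 := hv
  have h0 : 0 < (v : V3) 0 := (abs_nonneg _).trans_lt hv'
  have h1 : |co v 1| < co v 0 := by
    rw [abs_co, co_apply]
    exact mul_lt_mul_of_pos_left hv' hl
  have h2 : |co v 0| = co v 0 := abs_of_pos ((abs_nonneg _).trans_lt h1)
  have h3 := l1_co v
  unfold l1 at h3
  unfold T1
  rw [abs_T2_of_ge (by rw [h2]; exact h1.le)]
  have h4 : |co v 2| = 1 - co v 0 - |co v 1| := by rw [← h2]; linarith
  rw [h4, h2, ← sq_abs (co v 1)]
  set X := co v 0 - 1 with hX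
  set Y := |co v 1|
  have r1 : co v 0 - Y - 1 = X - Y := by rw [hX]; ring
  have r2 : 1 - co v 0 - Y - 2 * Y = -(X + 3 * Y) := by rw [hX]; ring
  rw [r1, r2]
  nlinarith [sq_nonneg (X + 4 * Y), sq_nonneg Y, sq_nonneg X]

theorem rho_le (v : S2) : rho v ≤ 5 := by
  have h1 := l1_co v
  unfold l1 at h1
  have a : |co v 0| ≤ 1 := by linarith [abs_nonneg (co v 1), abs_nonneg (co v 2)]
  have b : |co v 1| ≤ 1 := by linarith [abs_nonneg (co v 0), abs_nonneg (co v 2)]
  rw [abs_le] at a b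
  unfold rho
  nlinarith

/-- the fixed point `e1` is repelling -/
theorem eq_e1_of_orbit {v : S2} (hv : ∀ n, f^[n] v ∈ N0) : v = e1 := by
  have key : ∀ n, (3 / 2 : ℝ) ^ n * rho v ≤ rho (f^[n] v) := by
    intro n
    induction n with
    | zero => simp
    | succ n ih =>
      rw [Function.iterate_succ_apply', pow_succ]
      have := rho_f (hv n)
      nlinarith
  have h0 : rho v = 0 := by
    by_contra hne
    have hpos : 0 < rho v := lt_of_le_of_ne (by unfold rho; positivity) (Ne.symm hne)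
    obtain ⟨n, hn⟩ := pow_unbounded_of_one_lt (5 / rho v) (by norm_num : (1 : ℝ) < 3 / 2)
    rw [div_lt_iff₀ hpos] at hn
    linarith [key n, rho_le (f^[n] v)]
  have h1 : co v 0 = 1 := by
    unfold rho at h0
    nlinarith [sq_nonneg (co v 0 - 1), sq_nonneg (co v 1)]
  have h2 : co v 1 = 0 := by
    unfold rho at h0
    nlinarith [sq_nonneg (co v 0 - 1), sq_nonneg (co v 1)]
  have h3 := l1_co v
  unfold l1 at h3
  rw [h1, h2] at h3
  have h4 : co v 2 = 0 := by
    have : |co v 2| = 0 := by simpa using h3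
    exact abs_eq_zero.mp this
  have hl := l1_pos v
  have a1 : (v : V3) 1 = 0 := by
    rw [co_apply] at h2
    exact (mul_eq_zero.mp h2).resolve_left (inv_pos.mpr hl).ne'
  have a2 : (v : V3) 2 = 0 := by
    rw [co_apply] at h4
    exact (mul_eq_zero.mp h4).resolve_left (inv_pos.mpr hl).ne'
  have hs := sum_sq v
  rw [a1, a2] at hs
  have a0 : (v : V3) 0 = 1 := by
    have hp : 0 < (v : V3) 0 := by
      rw [co_apply] at h1
      by_contra hcon
      push Not at hcon
      nlinarith [inv_pos.mpr hl]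
    nlinarith
  apply Subtype.ext
  apply v3_ext
  · rw [a0, e1_zero]
  · rw [a1, e1_one]
  · rw [a2, e1_two]

theorem N0_mem : N0 ∈ 𝓝 e1 := by
  have ho : IsOpen N0 := isOpen_lt (coord_cont 1).abs (coord_cont 0)
  apply ho.mem_nhds
  change |(e1 : V3) 1| < (e1 : V3) 0
  rw [e1_zero, e1_one]; norm_num

theorem f_e1 : f e1 = e1 := by
  apply Subtype.ext
  have hF : F (e1 : V3) = e1 := by
    apply v3_ext
    · rw [F_zero, e1_zero, e1_one]; simp [T1]
    · rw [F_one, e1_zero, e1_one, e1_two, T2_zero_right]; simp [T1]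
    · rw [F_two, e1_zero, e1_one, e1_two, T2_zero_right, T2_zero_right]; simp
  rw [f_coe, hF, norm_S2]; simp

/-- `f` is locally injective at the points near `e1` except `e1` -/
theorem f_loc_near : ∀ᶠ v in 𝓝 e1, v ≠ e1 → ∃ V ∈ 𝓝 v, InjOn f V := by
  have h1 : ∀ᶠ v : S2 in 𝓝 e1, 0 < (v : V3) 0 := by
    apply continuousAt_const.eventually_lt (coord_cont 0).continuousAt
    rw [e1_zero]; norm_num
  filter_upwards [h1] with v hv hne
  apply f_locInj
  intro h6
  apply hne
  have hs := sum_sq v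
  rcases h6 with ⟨a, b⟩ | ⟨a, b⟩ | ⟨a, b⟩
  · exact absurd a hv.ne'
  · exact absurd a hv.ne'
  · rw [a, b] at hs
    apply Subtype.ext
    apply v3_ext
    · rw [e1_zero]; nlinarith
    · rw [a, e1_one]
    · rw [b, e1_two]

/-- `f` is not locally injective at `e1` -/
theorem f_not_loc : ¬ ∃ V ∈ 𝓝 e1, InjOn f V := by
  rintro ⟨V, hV, hinj⟩
  have h1 : ∀ᶠ w in 𝓝 (1 : ℂ), unstereo w ∈ V :=
    continuous_unstereo.continuousAt.eventually hV
  have hinv : Tendsto (fun w : ℂ => w⁻¹) (𝓝 1) (𝓝 1) := by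
    have := (continuousAt_inv₀ (one_ne_zero : (1 : ℂ) ≠ 0)).tendsto
    rwa [inv_one] at this
  have h2 := hinv.eventually h1
  have h3 : ∀ᶠ w in 𝓝 (1 : ℂ), w + 1 ≠ 0 := by
    apply ContinuousAt.eventually_ne (by fun_prop)
    norm_num
  have h5 : ∀ᶠ w in 𝓝 (1 : ℂ), w ≠ 0 := isOpen_ne.mem_nhds one_ne_zero
  have e4 : ∃ᶠ z in 𝓝 (1 : ℂ), z ≠ 1 := by
    have : (𝓝[≠] (1 : ℂ)).NeBot := inferInstance
    exact frequently_iff_neBot.mpr (by
      have h' : 𝓝 (1 : ℂ) ⊓ 𝓟 {t | t ≠ 1} = 𝓝[≠] 1 := rfl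
      rw [h']; exact this)
  obtain ⟨w, hw1, ⟨⟨a, b⟩, c⟩, d⟩ := (e4.and_eventually (((h1.and h2).and h3).and h5)).exists
  have h6 : f (unstereo w) = f (unstereo w⁻¹) := by
    rw [f_unstereo_eq]; right; field_simp
  have h7 := unstereo_injective (hinj a b h6)
  have h8 : (w - 1) * (w + 1) = 0 := by
    have : w * w = 1 := by
      nth_rewrite 2 [h7]
      exact mul_inv_cancel₀ d
    linear_combination this
  rcases mul_eq_zero.mp h8 with h9 | h9
  · exact hw1 (by linear_combination h9)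
  · exact c h9

/-- No `C¹` map of the sphere is topologically conjugate to `f`. -/
theorem not_contMDiff (h : S2 ≃ₜ S2) (g : S2 → S2) (hg : ∀ x, h (f x) = g (h x)) :
    ¬ ContMDiff (𝓡 2) (𝓡 2) 1 g := by
  intro hsm
  set p := h e1 with hp
  have hgp : g p = p := by rw [hp, ← hg, f_e1]
  have hgcont : Continuous g := hsm.continuous
  -- local injectivity of g
  have hgloc : ∀ᶠ y in 𝓝 p, y ≠ p → ∃ V ∈ 𝓝 y, InjOn g V := by
    have hs : Tendsto h.symm (𝓝 p) (𝓝 e1) := by
      have := h.symm.continuous.tendsto p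
      rwa [hp, h.symm_apply_apply] at this
    filter_upwards [hs.eventually f_loc_near] with y hy hne
    obtain ⟨V, hV, hi⟩ := hy (fun h' => hne (by rw [hp, ← h', h.apply_symm_apply]))
    refine ⟨h.symm ⁻¹' V, h.symm.continuous.continuousAt.preimage_mem_nhds hV, ?_⟩
    intro a ha b hb hab
    have e : f (h.symm a) = f (h.symm b) := by
      apply h.injective
      rw [hg, hg, h.apply_symm_apply, h.apply_symm_apply, hab]
    exact h.symm.injective (hi ha hb e)
  have hgnot : ¬ ∃ V ∈ 𝓝 p, InjOn g V := by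
    rintro ⟨V, hV, hi⟩
    apply f_not_loc
    refine ⟨h ⁻¹' V, h.continuous.continuousAt.preimage_mem_nhds hV, ?_⟩
    intro a ha b hb hab
    apply h.injective
    apply hi ha hb
    rw [← hg, ← hg, hab]
  -- the chart
  set φ := chartAt (EuclideanSpace ℝ (Fin 2)) p with hφ
  have hpφ : p ∈ φ.source := mem_chart_source _ p
  set x₀ := φ p with hx₀
  have hx₀t : x₀ ∈ φ.target := φ.map_source hpφ
  have hsx₀ : φ.symm x₀ = p := φ.left_inv hpφ
  set u : E2 → E2 := fun x => φ (g (φ.symm x)) with hu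
  have hux₀ : u x₀ = x₀ := by
    simp only [hu]; rw [hsx₀, hgp]
  have hcd : ContDiffAt ℝ 1 u x₀ := by
    have h1 := (contMDiffAt_iff.mp (hsm p)).2
    rw [hgp] at h1
    simpa [extChartAt, hu, hx₀, hφ, Function.comp_def, contDiffWithinAt_univ] using h1
  have hcs : Tendsto φ.symm (𝓝 x₀) (𝓝 p) := by
    have := (φ.continuousAt_symm hx₀t).tendsto
    rwa [hsx₀] at this
  have hgs : ∀ᶠ y in 𝓝 p, g y ∈ φ.source := by
    have : Tendsto g (𝓝 p) (𝓝 p) := by
      have := hgcont.tendsto p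
      rwa [hgp] at this
    exact this.eventually (φ.open_source.mem_nhds hpφ)
  obtain ⟨S, hSsub, hSo, hpS⟩ := eventually_nhds_iff.mp hgs
  have hloc : ∀ᶠ x in 𝓝 x₀, x ≠ x₀ → ∃ V ∈ 𝓝 x, InjOn u V := by
    filter_upwards [hcs.eventually hgloc, φ.open_target.mem_nhds hx₀t,
      hcs.eventually (hSo.mem_nhds hpS)] with x h1 h2 h3 hne
    have hne' : φ.symm x ≠ p := by
      intro h4
      apply hne
      rw [← φ.right_inv h2, h4]
    obtain ⟨V, hV, hi⟩ := h1 hne'
    have hcx := φ.continuousAt_symm h2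
    refine ⟨{z | z ∈ φ.target ∧ φ.symm z ∈ V ∧ φ.symm z ∈ S}, ?_, ?_⟩
    · filter_upwards [φ.open_target.mem_nhds h2, hcx.eventually hV,
        hcx.eventually (hSo.mem_nhds h3)] with z a b c using ⟨a, b, c⟩
    · rintro a ⟨a1, a2, a3⟩ b ⟨b1, b2, b3⟩ hab
      have e1' := φ.injOn (hSsub _ a3) (hSsub _ b3) hab
      have e2' := hi a2 b2 e1'
      rw [← φ.right_inv a1, e2', φ.right_inv b1]
  have hnot : ¬ ∃ V ∈ 𝓝 x₀, InjOn u V := by
    rintro ⟨V, hV, hi⟩
    apply hgnot
    have hc := φ.continuousAt hpφ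
    refine ⟨{y | y ∈ φ.source ∧ φ y ∈ V}, ?_, ?_⟩
    · filter_upwards [φ.open_source.mem_nhds hpφ, hc.eventually hV] with y a b using ⟨a, b⟩
    · rintro a ⟨a1, a2⟩ b ⟨b1, b2⟩ hab
      have : u (φ a) = u (φ b) := by
        simp only [hu]
        rw [φ.left_inv a1, φ.left_inv b1, hab]
      exact φ.injOn a1 b1 (hi a2 b2 this)
  have hD := fderiv_eq_zero hcd hloc hnot
  have hinv := small_invariant hux₀ (hcd.differentiableAt (by norm_num)) hD
  -- a small invariant ball
  have hgood : ∀ᶠ x in 𝓝 x₀, x ∈ φ.target ∧ h.symm (φ.symm x) ∈ N0 ∧ φ.symm x ∈ S := by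
    have hs : Tendsto h.symm (𝓝 p) (𝓝 e1) := by
      have := h.symm.continuous.tendsto p
      rwa [hp, h.symm_apply_apply] at this
    filter_upwards [φ.open_target.mem_nhds hx₀t, (hs.comp hcs).eventually N0_mem,
      hcs.eventually (hSo.mem_nhds hpS)] with x a b c using ⟨a, b, c⟩
  obtain ⟨ε, hε, hball⟩ := Metric.eventually_nhds_iff_ball.mp hgood
  obtain ⟨r, hr1, hr2⟩ := (hinv.and (Ioo_mem_nhdsGT hε)).exists
  -- orbits stay in N0
  have horb : ∀ x ∈ Metric.ball x₀ r, ∀ n, ∃ x' ∈ Metric.ball x₀ r,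
      f^[n] (h.symm (φ.symm x)) = h.symm (φ.symm x') := by
    intro x hx n
    induction n with
    | zero => exact ⟨x, hx, rfl⟩
    | succ n ih =>
      obtain ⟨x', hx', he⟩ := ih
      refine ⟨u x', hr1 x' hx', ?_⟩
      rw [Function.iterate_succ_apply', he]
      apply h.injective
      rw [hg, h.apply_symm_apply, h.apply_symm_apply]
      have hS := (hball x' (Metric.ball_subset_ball hr2.2.le hx')).2.2
      simp only [hu]
      rw [φ.left_inv (hSsub _ hS)]
  have hone : ∀ x ∈ Metric.ball x₀ r, x = x₀ := by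
    intro x hx
    have h1 : h.symm (φ.symm x) = e1 := by
      apply eq_e1_of_orbit
      intro n
      obtain ⟨x', hx', he⟩ := horb x hx n
      rw [he]
      exact (hball x' (Metric.ball_subset_ball hr2.2.le hx')).2.1
    have h2 : φ.symm x = p := by
      rw [hp, ← h1, h.apply_symm_apply]
    rw [← φ.right_inv (hball x (Metric.ball_subset_ball hr2.2.le hx)).1, h2]
  apply hnot
  refine ⟨Metric.ball x₀ r, Metric.ball_mem_nhds _ hr2.1, ?_⟩
  intro a ha b hb _
  rw [hone a ha, hone b hb]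

/-- `f` is not conjugate to a `C¹` map. -/
theorem main : ∃ f : S2 → S2, IsExpandingThurstonMap f ∧
    ∀ (g : S2 → S2) (h : S2 ≃ₜ S2), (∀ x, h (f x) = g (h x)) → ¬ ContMDiff (𝓡 2) (𝓡 2) 1 g :=
  ⟨f, isExpandingThurstonMap_f, fun g h hg => not_contMDiff h g hg⟩

end Pool.Agent.Run7.h327.Th
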